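import Pool.Agent.H68.TL.Main

/-!
# The module `M ⊗ M` over `F_2` with diagonal action
-/

namespace Pool.Agent.H68.TL

open TensorProduct

variable {M : Type} [AddCommGroup M] [Module (ZMod 2) M]

/-- the swap -/
noncomputable def swp (M : Type) [AddCommGroup M] [Module (ZMod 2) M] :
    M ⊗[ZMod 2] M →ₗ[ZMod 2] M ⊗[ZMod 2] M := (TensorProduct.comm (ZMod 2) M M).toLinearMap

@[simp] lemma swp_tmul (m n : M) : swp M (m ⊗ₜ n) = n ⊗ₜ m := rfl

lemma swp_swp (t : M ⊗[ZMod 2] M) : swp M (swp M t) = t := by
  induction t using TensorProduct.induction_on with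
  | zero => simp
  | tmul m n => simp
  | add a b ha hb => rw [map_add, map_add, ha, hb]

lemma two_eq {B : Type} [AddCommGroup B] [Module (ZMod 2) B] (b : B) : b + b = 0 := by
  rw [← two_smul (ZMod 2) b]
  have : (2 : ZMod 2) = 0 := by decide
  rw [this, zero_smul]

section coord

variable {ι : Type} (b : Module.Basis ι (ZMod 2) M)

lemma repr_swp (t : M ⊗[ZMod 2] M) (i j : ι) :
    (b.tensorProduct b).repr (swp M t) (i, j) = (b.tensorProduct b).repr t (j, i) := by
  induction t using TensorProduct.induction_on with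
  | zero => simp
  | tmul m n =>
    rw [swp_tmul, Module.Basis.tensorProduct_repr_tmul_apply,
      Module.Basis.tensorProduct_repr_tmul_apply]
    simp [mul_comm]
  | add x y hx hy => rw [map_add, map_add, map_add, Finsupp.add_apply, Finsupp.add_apply, hx, hy]

lemma sq_self (c : ZMod 2) : c * c = c := by revert c; decide

/-- a symmetric tensor with zero diagonal is a norm -/
lemma norm_of_diag (t : M ⊗[ZMod 2] M) (ht : swp M t = t)
    (h0 : ∀ i, (b.tensorProduct b).repr t (i, i) = 0) : ∃ a, t = a + swp M a := by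
  classical
  let _ : LinearOrder ι := linearOrderOfSTO (WellOrderingRel (α := ι))
  let a := (b.tensorProduct b).repr.symm
    (((b.tensorProduct b).repr t).filter (fun p => p.1 < p.2))
  refine ⟨a, (b.tensorProduct b).repr.injective ?_⟩
  ext ⟨i, j⟩
  rw [map_add, Finsupp.add_apply, repr_swp]
  have ha : ∀ i j, (b.tensorProduct b).repr a (i, j) =
      if i < j then (b.tensorProduct b).repr t (i, j) else 0 := by
    intro i j
    simp only [a, LinearEquiv.apply_symm_apply, Finsupp.filter_apply]
  have hs : (b.tensorProduct b).repr t (j, i) = (b.tensorProduct b).repr t (i, j) := by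
    rw [← repr_swp, ht]
  rw [ha, ha]
  rcases lt_trichotomy i j with h | h | h
  · rw [if_pos h, if_neg (not_lt.2 h.le), add_zero]
  · subst h
    rw [if_neg (lt_irrefl i), add_zero, h0]
  · rw [if_neg (not_lt.2 h.le), if_pos h, zero_add, hs]

end coord

/-- symmetric tensors -/
lemma tensor_sym (t : M ⊗[ZMod 2] M) (ht : swp M t = t) :
    ∃ (m : M) (a : M ⊗[ZMod 2] M), t = m ⊗ₜ m + (a + swp M a) := by
  classical
  let b := Module.Basis.ofVectorSpace (ZMod 2) M
  let m : M := b.repr.symm (((b.tensorProduct b).repr t).comapDomain (fun i => (i, i))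
    (fun i _ j _ h => by simpa using h))
  have hm : ∀ i, b.repr m i = (b.tensorProduct b).repr t (i, i) := by
    intro i
    simp only [m, LinearEquiv.apply_symm_apply]
    exact Finsupp.comapDomain_apply _ _ _ _
  obtain ⟨a, ha⟩ := norm_of_diag b (t + m ⊗ₜ m) (by rw [map_add, ht, swp_tmul]) (fun i => by
    rw [map_add, Finsupp.add_apply, Module.Basis.tensorProduct_repr_tmul_apply]
    simp only [hm, smul_eq_mul]
    rw [sq_self]
    exact two_eq _)
  refine ⟨m, a, ?_⟩
  rw [← ha, add_comm t, ← add_assoc, two_eq, zero_add]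

lemma tensor_zero (m : M) (a : M ⊗[ZMod 2] M) (h : m ⊗ₜ m = a + swp M a) : m = 0 := by
  classical
  let b := Module.Basis.ofVectorSpace (ZMod 2) M
  apply b.repr.injective
  ext i
  have h1 := congrArg (fun t => (b.tensorProduct b).repr t (i, i)) h
  simp only [map_add, Finsupp.add_apply, repr_swp, Module.Basis.tensorProduct_repr_tmul_apply,
    smul_eq_mul] at h1
  rw [sq_self, two_eq] at h1
  rw [h1]; simp

/-- `M ⊗ M` with the diagonal action -/
def TSq (M : Type) [AddCommGroup M] [Module (ZMod 2) M] : Type := M ⊗[ZMod 2] M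

noncomputable instance : AddCommGroup (TSq M) := inferInstanceAs (AddCommGroup (M ⊗[ZMod 2] M))

noncomputable instance : Module (ZMod 2) (TSq M) := inferInstanceAs (Module (ZMod 2) (M ⊗[ZMod 2] M))

section act

variable {Γ : Type} [Group Γ] [DistribMulAction Γ M]

/-- the action of `g` as a linear map -/
def lin (M : Type) [AddCommGroup M] [Module (ZMod 2) M] [DistribMulAction Γ M] (g : Γ) :
    M →ₗ[ZMod 2] M := AddMonoidHom.toZModLinearMap 2 (DistribSMul.toAddMonoidHom M g)

@[simp] lemma lin_apply (g : Γ) (m : M) : lin M g m = g • m := rfl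

noncomputable instance : DistribMulAction Γ (TSq M) where
  smul g t := TensorProduct.map (lin M g) (lin M g) t
  one_smul t := by
    change TensorProduct.map (lin M (1 : Γ)) (lin M (1 : Γ)) t = t
    have : lin M (1 : Γ) = LinearMap.id := by ext m; simp
    rw [this, TensorProduct.map_id]; rfl
  mul_smul g h t := by
    change TensorProduct.map (lin M (g * h)) (lin M (g * h)) t =
      TensorProduct.map (lin M g) (lin M g) (TensorProduct.map (lin M h) (lin M h) t)
    have : lin M (g * h) = (lin M g) ∘ₗ (lin M h) := by ext m; simp [mul_smul]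
    rw [this, TensorProduct.map_comp]; rfl
  smul_zero g := map_zero (TensorProduct.map (lin M g) (lin M g))
  smul_add g s t := map_add (TensorProduct.map (lin M g) (lin M g)) s t

lemma smul_def (g : Γ) (t : TSq M) : g • t = TensorProduct.map (lin M g) (lin M g) t := rfl

/-- pure tensors -/
noncomputable def TSq.tm (m n : M) : TSq M := (m ⊗ₜ n : M ⊗[ZMod 2] M)

lemma smul_tm (g : Γ) (m n : M) : g • TSq.tm m n = TSq.tm (g • m) (g • n) := rfl

lemma TSq.ind {P : TSq M → Prop} (t : TSq M) (h0 : P 0) (ht : ∀ m n, P (TSq.tm m n))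
    (ha : ∀ s t, P s → P t → P (s + t)) : P t :=
  TensorProduct.induction_on (motive := fun t => P t) t h0 ht ha

/-- the swap on `TSq` -/
noncomputable def Tsw : TSq M →+ TSq M := (swp M).toAddMonoidHom

lemma Tsw_tm (m n : M) : Tsw (TSq.tm m n) = TSq.tm n m := rfl

lemma Tsw_smul (g : Γ) (a : TSq M) : Tsw (g • a) = g • Tsw a := by
  induction a using TSq.ind with
  | h0 => rw [smul_zero, map_zero, smul_zero]
  | ht m n => rfl
  | ha s t hs ht => rw [smul_add, map_add, map_add, hs, ht, smul_add]

/-- the square of a module -/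
noncomputable def sqTensor (Γ M : Type) [Group Γ] [AddCommGroup M] [Module (ZMod 2) M]
    [DistribMulAction Γ M] : SqMod Γ M (TSq M) where
  β := AddMonoidHom.mk' (fun m => AddMonoidHom.mk' (fun n => TSq.tm m n)
      (fun n n' => TensorProduct.tmul_add m n n'))
      (fun m m' => by ext n; exact TensorProduct.add_tmul m m' n)
  T := Tsw
  twoM m := two_eq m
  two a := two_eq a
  TT a := swp_swp a
  Tβ m n := rfl
  smul_β g m n := rfl
  smul_T g a := Tsw_smul g a
  sym a h := tensor_sym a h
  zero m b h := tensor_zero m b h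

end act

end Pool.Agent.H68.TL
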