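import Pool.Agent.H68.TL.Davis
import Pool.Agent.H68.TL.Tensor

/-!
# Assembly: duality + acyclicity of `D ⊗ D` imply the Charney-Davis inequality
-/

namespace Pool.Agent.H68.TL

open Finset

set_option linter.unusedSectionVars false

variable {V X Γ : Type} [LinearOrder V] [Fintype V] [Group Γ] [MulAction Γ X]

instance {D : Type} [DivisionRing D] [Module (ZMod 2) D] (u : Γ →* Dˣ) :
    Module (ZMod 2) (CC.DL u) := inferInstanceAs (Module (ZMod 2) D)

/-- no cochains above the dimension -/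
lemma ex_of_empty (C : CC V X Γ) {M : Type} [AddCommGroup M] [DistribMulAction Γ M] {m : ℕ}
    (h : ∀ s : Finset V, C.Clq s → s.card ≠ m) : Ex (C.K M) (C.dlt (M := M)) m := by
  have key : ∀ f ∈ C.K M m, f = 0 := by
    intro f hf
    funext x s
    exact CC.K_zero hf (fun h' => h s h'.1 h'.2) x
  cases m with
  | zero => intro f hf _; exact key f hf
  | succ m => intro f hf _; exact ⟨0, (C.K M m).zero_mem, by rw [map_zero, key f hf]⟩

/-- all cohomology of `D` is in the middle degree -/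
theorem ex_middle (C : CC V X Γ) [Fintype (CC.Orb X Γ)] {D : Type} [DivisionRing D] [StarRing D]
    [Module (ZMod 2) D] (u : Γ →* Dˣ) (hu : ∀ g, star (u g : D) = ((u g)⁻¹ : Dˣ)) (n : ℕ)
    (hdim : ∀ s : Finset V, C.Clq s → s.card ≤ 2 * n)
    (dual : ∀ (A : Type) [AddCommGroup A] [DistribMulAction Γ A], (∀ a : A, a + a = 0) →
      ∀ m, m ≤ 2 * n → C.Exb A (2 * n - m) → Ex (C.K A) (C.dlt (M := A)) m)
    (acyc : ∀ i, 0 < i → C.Exb (TSq (CC.DL u)) i) :
    ∀ m, m ≠ n → Ex (C.K (CC.DL u)) (C.dlt (M := CC.DL u)) m := by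
  have h1 : 0 < n → ∀ m, m ≤ n - 1 → Ex (C.K (CC.DL u)) (C.dlt (M := CC.DL u)) m := by
    intro hn
    refine (sqTensor Γ (CC.DL u)).tate C (n - 1) (fun m hm => ?_)
    exact dual (TSq (CC.DL u)) (fun a => two_eq a) m (by omega) (acyc _ (by omega))
  intro m hm
  rcases lt_or_gt_of_ne hm with h | h
  · exact h1 (by omega) m (by omega)
  · by_cases h2 : m ≤ 2 * n
    · refine dual (CC.DL u) (fun a => two_eq a) m h2 ?_
      exact C.exb_of_ex hu (2 * n - m) (h1 (by omega) _ (by omega))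
    · exact ex_of_empty C (fun s hs hc => h2 (hc ▸ hdim s hs))

end Pool.Agent.H68.TL
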