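import Pool.Agent.H68.TL.Cell

/-!
# Exactness is invariant under isomorphism of coefficient modules
-/

namespace Pool.Agent.H68.TL

open Finset

set_option linter.unusedSectionVars false

variable {V X Γ : Type} [DecidableEq V] [Group Γ] [MulAction Γ X]
variable {A B : Type} [AddCommGroup A] [DistribMulAction Γ A] [AddCommGroup B]
  [DistribMulAction Γ B]

namespace CC

variable (C : CC V X Γ)

/-- composition of a cochain with an additive map -/
def post (θ : A →+ B) : (X → Finset V → A) →+ (X → Finset V → B) where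
  toFun f x s := θ (f x s)
  map_zero' := by funext x s; exact map_zero θ
  map_add' f g := by funext x s; exact map_add θ _ _

lemma post_mem (θ : A →+ B) (hθ : ∀ (g : Γ) a, θ (g • a) = g • θ a) {m : ℕ}
    {f : X → Finset V → A} (hf : f ∈ C.K A m) : post θ f ∈ C.K B m := by
  refine ⟨fun x s h0 => ?_, fun x s v hs hv => ?_, fun g x s => ?_⟩
  · exact K_supp (x := x) hf (fun h1 => h0 (by
      change θ (f x s) = 0
      rw [h1, map_zero]))
  · change θ (f (C.tau v x) s) = θ (f x s)
    rw [K_tau hf hs hv]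
  · change θ (f (g • x) s) = g • θ (f x s)
    rw [K_smul hf, hθ]

lemma post_bdy [Fintype V] (θ : A →+ B) (f : X → Finset V → A) :
    bdy (post θ f) = post θ (bdy f) := by
  funext x s
  change ∑ v ∈ univ.filter (· ∉ s), θ (f x (insert v s)) = θ (∑ v ∈ univ.filter (· ∉ s), f x (insert v s))
  rw [map_sum]

lemma post_dlt (θ : A →+ B) (f : X → Finset V → A) :
    C.dlt (post θ f) = post θ (C.dlt f) := by
  funext x t
  by_cases ht : C.Clq t
  · rw [C.dlt_clq ht]
    change _ = θ (C.dlt f x t)
    rw [C.dlt_clq ht, map_sum]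
    exact sum_congr rfl fun v _ => (map_add θ _ _).symm
  · rw [C.dlt_not ht]
    change _ = θ (C.dlt f x t)
    rw [C.dlt_not ht, map_zero]

lemma post_symm (θ : A ≃+ B) (f : X → Finset V → B) :
    post θ.toAddMonoidHom (post θ.symm.toAddMonoidHom f) = f := by
  funext x s
  exact θ.apply_symm_apply _

/-- transport of `Exb` -/
theorem Exb.congr [Fintype V] {C : CC V X Γ} {m : ℕ} (h : C.Exb A m) (θ : A ≃+ B)
    (hθ : ∀ (g : Γ) a, θ (g • a) = g • θ a) : C.Exb B m := by
  have hθ' : ∀ (g : Γ) b, θ.symm (g • b) = g • θ.symm b := by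
    intro g b
    rw [AddEquiv.symm_apply_eq, hθ, AddEquiv.apply_symm_apply]
  intro f hf hbf
  obtain ⟨g, hg, hgf⟩ := h (post θ.symm.toAddMonoidHom f) (C.post_mem _ hθ' hf) (by
    rw [post_bdy, hbf, map_zero])
  refine ⟨post θ.toAddMonoidHom g, C.post_mem _ hθ hg, ?_⟩
  rw [post_bdy, hgf, post_symm]

end CC

end Pool.Agent.H68.TL
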