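import Pool.Agent.H57.CD.RowsOf
import Pool.Agent.H3.PF.Tower

/-!
# The right-angled theorem, from the acyclicity of `D ⊗ D`
-/

namespace Pool.Agent.H68.TL

open Finset Pool.Agent.H75.Davis Pool.Agent.H96.CD Pool.Agent.H47.CD

set_option linter.unusedSectionVars false

section

variable {V : Type} [LinearOrder V] [Fintype V] (G : SimpleGraph V) [DecidableRel G.Adj]

/-- the right-angled Coxeter data of a graph -/
noncomputable def rd : RData V G.Adj (RW G.Adj (fun _ _ h => SimpleGraph.Adj.symm h)) :=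
  rdata G.Adj (fun _ _ h => SimpleGraph.Adj.symm h) (fun v => G.irrefl)

/-- the commutator subgroup -/
noncomputable abbrev gm : Subgroup (RW G.Adj (fun _ _ h => SimpleGraph.Adj.symm h)) :=
  Gam G.Adj (fun _ _ h => SimpleGraph.Adj.symm h)

lemma mem_gm (w : RW G.Adj (fun _ _ h => SimpleGraph.Adj.symm h)) :
    w ∈ gm G ↔ ∀ u, (rd G).χ u w = 1 := mem_Gam _ _ w

/-- the Davis complex of a graph -/
noncomputable def dv : CC V (RW G.Adj (fun _ _ h => SimpleGraph.Adj.symm h)) (gm G) :=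
  davis (rd G) (gm G) (mem_gm G)

lemma dv_adj (u v : V) : (dv G).adj u v ↔ G.Adj u v := Iff.rfl

/-- what is needed from B4 -/
def B4 : Prop := ∀ (D : Type) [DivisionRing D] [StarRing D] [Module (ZMod 2) D]
  (u : gm G →* Dˣ) (Φ : MonoidAlgebra (ZMod 2) (gm G) →+* D),
  (∀ g, star (u g : D) = ((u g)⁻¹ : Dˣ)) → (∀ g, Φ (MonoidAlgebra.single g 1) = u g) →
  Transport Φ → ∀ i, 0 < i → (dv G).Exb (TSq (CC.DL u)) i

open Classical in
theorem ra_aux (hB4 : B4 G) (n : ℕ) (hS : Pool.H8.CDW.Sphere G (2 * n)) :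
    0 ≤ (-1 : ℚ) ^ n *
      ∑ s ∈ univ.filter (fun s : Finset V => (dv G).Clq s), (-1 / 2 : ℚ) ^ s.card := by
  obtain ⟨D, _, _, u, Φ, hchar, hu, hΦ, hT⟩ :=
    Pool.Agent.H3.PF.exists_field_Gam V G.Adj (fun _ _ h => SimpleGraph.Adj.symm h)
  let _ : Algebra (ZMod 2) D := ZMod.algebra D 2
  let _ : Fintype (CC.Orb (RW G.Adj (fun _ _ h => SimpleGraph.Adj.symm h)) (gm G)) :=
    fintypeOrb (rd G) (gm G) (mem_gm G)
  have h1 := ex_middle' (dv G) u hu n
    (fun A _ two => (dv G).rows_of_sphere G (dv_adj G) hS A two) (hB4 D u Φ hu hΦ hT)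
  exact davis_euler (rd G) (gm G) (mem_gm G) u (fun a => two_eq a) n h1

lemma kap_eq (s : Finset V) : Pool.H8.CDW.Link G ∅ s ↔ (dv G).Clq s := by
  rw [(dv G).clq_iff G (dv_adj G)]
  unfold Pool.H8.CDW.Link
  simp

end

/-- The right-angled theorem, from B4. -/
theorem RA_of (hB4 : ∀ (V : Type) [LinearOrder V] [Fintype V] (G : SimpleGraph V)
    [DecidableRel G.Adj], B4 G) :
    ∀ (V : Type) [Fintype V] [DecidableEq V] (G : SimpleGraph V) (n : ℕ),
      Pool.H8.CDW.Sphere G (2 * n) → 0 ≤ (-1 : ℚ) ^ n * Pool.H8.CDW.kap G ∅ := by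
  classical
  intro V _ hdec G n hS
  let lin : LinearOrder V := LinearOrder.lift' (Fintype.equivFin V) (Fintype.equivFin V).injective
  have hinst : hdec = (fun a b => lin.toDecidableEq a b) := Subsingleton.elim _ _
  have hS' : @Pool.H8.CDW.Sphere V (fun a b => lin.toDecidableEq a b) G (2 * n) := by
    rw [← hinst]; exact hS
  have h := ra_aux G (hB4 V G) n hS'
  unfold Pool.H8.CDW.kap
  have e : (univ.filter (fun s : Finset V => (dv G).Clq s)) =
      univ.filter (fun s : Finset V => Pool.H8.CDW.Link G ∅ s) := by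
    ext s
    simp only [mem_filter, mem_univ, true_and]
    exact (kap_eq G s).symm
  rw [e] at h
  exact h

end Pool.Agent.H68.TL
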