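import Pool.Agent.H68.TL.Final
import Pool.Agent.H68.TL.Congr
import Pool.Agent.H57.CD.Zig

/-!
# Gluing with the duality of helper57
-/

namespace Pool.Agent.H68.TL

open Finset

set_option linter.unusedSectionVars false

variable {V X Γ : Type} [Fintype V] [Group Γ] [MulAction Γ X]

namespace CC

lemma bd_eq_bdy [DecidableEq V] (C : CC V X Γ) {M : Type} [AddCommGroup M]
    (f : X → Finset V → M) : C.bd f = bdy f := by
  funext x s
  rw [bd_apply, bdy_apply]
  refine sum_congr ?_ (fun _ _ => rfl)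
  ext v
  simp

theorem exb_iff [DecidableEq V] (C : CC V X Γ) (M : Type) [AddCommGroup M] [DistribMulAction Γ M]
    (m : ℕ) : C.Exb M m ↔ C.ExB M m := by
  unfold Exb ExB
  simp only [bd_eq_bdy]

end CC

/-- all cohomology of `D` is in the middle degree -/
theorem ex_middle' [LinearOrder V] (C : CC V X Γ) [Fintype (CC.Orb X Γ)] {D : Type}
    [DivisionRing D] [StarRing D] [Module (ZMod 2) D] (u : Γ →* Dˣ)
    (hu : ∀ g, star (u g : D) = ((u g)⁻¹ : Dˣ)) (n : ℕ)
    (rows : ∀ (A : Type) [AddCommGroup A], (∀ a : A, a + a = 0) → C.Rows (2 * n) A)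
    (acyc : ∀ i, 0 < i → C.Exb (TSq (CC.DL u)) i) :
    ∀ m, m ≠ n → Ex (C.K (CC.DL u)) (C.dlt (M := CC.DL u)) m := by
  refine ex_middle C u hu n (rows D (fun a => two_eq a)).dim ?_ acyc
  intro A _ _ two m hm h
  exact CC.dual1 two (rows A two) (by omega) ((C.exb_iff A _).1 h)

end Pool.Agent.H68.TL
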