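import Mathlib

/-!
# The cohomological Tate lemma, abstract version

`𝔸`, `𝕄` are the groups of all cochains with values in `M ⊗ M` and `M`, `KA m`, `KM m` the
subgroups of equivariant cochains of degree `m`.  `sq z = z ⊗ z`.
-/

namespace Pool.Agent.H68.TL

/-- abstract data -/
structure TD (𝔸 𝕄 : Type) [AddCommGroup 𝔸] [AddCommGroup 𝕄] where
  dA : 𝔸 →+ 𝔸
  dM : 𝕄 →+ 𝕄
  T : 𝔸 →+ 𝔸
  sq : 𝕄 → 𝔸
  KA : ℕ → AddSubgroup 𝔸
  KM : ℕ → AddSubgroup 𝕄
  two : ∀ a : 𝔸, a + a = 0
  twoM : ∀ z : 𝕄, z + z = 0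
  TT : ∀ a, T (T a) = a
  Td : ∀ a, T (dA a) = dA (T a)
  KT : ∀ m a, a ∈ KA m → T a ∈ KA m
  Kd : ∀ m a, a ∈ KA m → dA a ∈ KA (m + 1)
  dd : ∀ m a, a ∈ KA m → dA (dA a) = 0
  Kdm : ∀ m z, z ∈ KM m → dM z ∈ KM (m + 1)
  Ksq : ∀ m z, z ∈ KM m → sq z ∈ KA m
  /-- every symmetric cochain is a square modulo norms -/
  sym : ∀ m a, a ∈ KA m → T a = a → ∃ z ∈ KM m, ∃ f ∈ KA m, a = sq z + (f + T f)
  sq_add : ∀ m z z', z ∈ KM m → z' ∈ KM m →
    ∃ f ∈ KA m, sq (z + z') = sq z + sq z' + (f + T f)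
  sq_zero : ∀ m z f, z ∈ KM m → f ∈ KA m → sq z = f + T f → z = 0
  sq_d : ∀ m z, z ∈ KM m → ∃ f ∈ KA (m + 1), dA (sq z) = sq (dM z) + (f + T f)

variable {𝔸 𝕄 : Type} [AddCommGroup 𝔸] [AddCommGroup 𝕄]

/-- exactness of `(K, d)` at `m` -/
def Ex {B : Type} [AddCommGroup B] (K : ℕ → AddSubgroup B) (d : B →+ B) : ℕ → Prop
  | 0 => ∀ b ∈ K 0, d b = 0 → b = 0
  | m + 1 => ∀ b ∈ K (m + 1), d b = 0 → ∃ c ∈ K m, d c = b

namespace TD

variable (D : TD 𝔸 𝕄)

/-- the norm `1 + T` -/
def N (a : 𝔸) : 𝔸 := a + D.T a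

lemma N_add (a b : 𝔸) : D.N (a + b) = D.N a + D.N b := by
  unfold N; rw [map_add]; abel

lemma N_zero : D.N 0 = 0 := by simp [N]

lemma T_N (a : 𝔸) : D.T (D.N a) = D.N a := by
  unfold N; rw [map_add, D.TT]; abel

lemma N_N (a : 𝔸) : D.N (D.N a) = 0 := by
  have h := D.T_N a
  conv_lhs => unfold N
  change D.N a + D.T (D.N a) = 0
  rw [h, D.two]

lemma dA_N (a : 𝔸) : D.dA (D.N a) = D.N (D.dA a) := by
  unfold N; rw [map_add, D.Td]

lemma KN {m : ℕ} {a : 𝔸} (h : a ∈ D.KA m) : D.N a ∈ D.KA m :=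
  (D.KA m).add_mem h (D.KT m a h)

lemma N_eq_zero {a : 𝔸} : D.N a = 0 ↔ D.T a = a := by
  unfold N
  constructor
  · intro h
    have h2 : a = - D.T a := eq_neg_of_add_eq_zero_left h
    have h3 : D.T a = - D.T a := eq_neg_of_add_eq_zero_left (D.two _)
    rw [h3, ← h2]
  · intro h; rw [h, D.two]

include D in
lemma eq_of_add {a b : 𝔸} (h : a + b = 0) : a = b := by
  have h2 := D.two b
  have : a + b = b + b := by rw [h, h2]
  exact add_right_cancel this

/-- first half: the sequence `e` -/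
lemma exists_e (k : ℕ) (hA : ∀ m, m ≤ 2 * k → Ex D.KA D.dA m)
    (Z : ℕ → 𝔸) (hZ : ∀ i, i ≤ 2 * k → Z i ∈ D.KA (2 * k - i))
    (hZ0 : D.dA (Z 0) = 0) (hZs : ∀ i, i < 2 * k → D.dA (Z (i + 1)) = D.N (Z i)) (hk : 0 < k) :
    ∃ e : ℕ → 𝔸, (∀ i, i < 2 * k → e i ∈ D.KA (2 * k - 1 - i)) ∧ D.dA (e 0) = Z 0 ∧
      ∀ i, i + 1 < 2 * k → D.dA (e (i + 1)) = Z (i + 1) + D.N (e i) := by
  -- build by recursion, using choice at each step
  have step : ∀ n, n < 2 * k → ∃ e : ℕ → 𝔸, (∀ i, i ≤ n → e i ∈ D.KA (2 * k - 1 - i)) ∧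
      D.dA (e 0) = Z 0 ∧ ∀ i, i < n → D.dA (e (i + 1)) = Z (i + 1) + D.N (e i) := by
    intro n
    induction n with
    | zero =>
      intro h0
      have hd : 2 * k - 0 = (2 * k - 1) + 1 := by omega
      have h1 := hZ 0 (by omega)
      rw [hd] at h1
      have h2 := hA (2 * k - 1 + 1) (by omega)
      obtain ⟨c, hc, hc2⟩ := h2 (Z 0) h1 hZ0
      refine ⟨fun _ => c, ?_, hc2, fun i hi => absurd hi (Nat.not_lt_zero i)⟩
      intro i hi
      have : i = 0 := by omega
      subst this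
      simpa using hc
    | succ n ih =>
      intro hn
      obtain ⟨e, he, he0, hes⟩ := ih (by omega)
      have h1 : Z (n + 1) + D.N (e n) ∈ D.KA ((2 * k - 1 - (n + 1)) + 1) := by
        have e1 : 2 * k - 1 - (n + 1) + 1 = 2 * k - (n + 1) := by omega
        rw [e1]
        refine (D.KA _).add_mem (hZ (n + 1) (by omega)) ?_
        have e2 : 2 * k - (n + 1) = 2 * k - 1 - n := by omega
        rw [e2]
        exact D.KN (he n le_rfl)
      have h2 : D.dA (Z (n + 1) + D.N (e n)) = 0 := by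
        rw [map_add, hZs n (by omega), D.dA_N]
        rcases Nat.eq_zero_or_pos n with h0 | h0
        · subst h0
          rw [he0]; exact D.two _
        · obtain ⟨n', rfl⟩ : ∃ n', n = n' + 1 := ⟨n - 1, by omega⟩
          rw [hes n' (by omega), D.N_add, D.N_N, add_zero]
          exact D.two _
      obtain ⟨c, hc, hc2⟩ := hA (2 * k - 1 - (n + 1) + 1) (by omega) _ h1 h2
      refine ⟨fun i => if i = n + 1 then c else e i, ?_, ?_, ?_⟩
      · intro i hi
        by_cases h : i = n + 1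
        · subst h; simpa using hc
        · simp only [h, if_false]; exact he i (by omega)
      · simp only [show ¬ (0 = n + 1) by omega, if_false]; exact he0
      · intro i hi
        by_cases h : i = n
        · subst h
          simp only [if_true]
          rw [if_neg (by omega)]
          exact hc2
        · simp only [show ¬ (i + 1 = n + 1) by omega, show ¬ (i = n + 1) by omega, if_false]
          exact hes i (by omega)
  obtain ⟨e, he, he0, hes⟩ := step (2 * k - 1) (by omega)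
  exact ⟨e, fun i hi => he i (by omega), he0, fun i hi => hes i (by omega)⟩

/-- The cohomological Tate lemma. -/
theorem main (k : ℕ) (hA : ∀ m, m ≤ 2 * k → Ex D.KA D.dA m) (hM : ∀ m, m < k → Ex D.KM D.dM m)
    (x : 𝕄) (hx : x ∈ D.KM k)
    (Z : ℕ → 𝔸) (hZ : ∀ i, i ≤ 2 * k → Z i ∈ D.KA (2 * k - i))
    (hZ0 : D.dA (Z 0) = 0) (hZs : ∀ i, i < 2 * k → D.dA (Z (i + 1)) = D.N (Z i))
    (hZb : ∀ i, k < i → Z i = 0) (hZk : Z k = D.sq x) :
    (k = 0 → x = 0) ∧ (0 < k → ∃ y ∈ D.KM (k - 1), D.dM y = x) := by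
  refine ⟨?_, ?_⟩
  · rintro rfl
    have h1 : Z 0 = 0 := hA 0 (by omega) (Z 0) (by simpa using hZ 0 (by omega)) hZ0
    refine D.sq_zero 0 x 0 hx ((D.KA 0).zero_mem) ?_
    rw [← hZk, h1]; simp
  · intro hk
    obtain ⟨e, he, he0, hes⟩ := D.exists_e k hA Z hZ hZ0 hZs hk
    -- descending modification: for every `j ≤ k - 1` (`i = 2k-1-j`) there is `e'` symmetric
    have key : ∀ j, j < k → ∃ e' ∈ D.KA j, D.T e' = e' ∧
        ∃ c ∈ D.KA (j + 1), D.dA e' = Z (2 * k - 1 - j) + D.N c ∧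
          D.dA c = D.dA (e (2 * k - 2 - j)) := by
      intro j
      induction j with
      | zero =>
        intro _
        refine ⟨e (2 * k - 1), by simpa using he (2 * k - 1) (by omega), ?_, e (2 * k - 2), ?_,
          ?_, rfl⟩
        · -- symmetry of the last one
          rw [← D.N_eq_zero]
          refine hA 0 (by omega) _ (D.KN (by simpa using he (2 * k - 1) (by omega))) ?_
          rw [D.dA_N]
          have h1 := hes (2 * k - 2) (by omega)
          have e1 : 2 * k - 2 + 1 = 2 * k - 1 := by omega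
          rw [e1] at h1
          rw [h1, D.N_add, D.N_N, add_zero]
          have h2 := hZs (2 * k - 1) (by omega)
          have e2 : 2 * k - 1 + 1 = 2 * k := by omega
          rw [e2, hZb (2 * k) (by omega), map_zero] at h2
          exact h2.symm
        · have := he (2 * k - 2) (by omega)
          have e1 : 2 * k - 1 - (2 * k - 2) = 0 + 1 := by omega
          rwa [e1] at this
        · have h1 := hes (2 * k - 2) (by omega)
          have e1 : 2 * k - 2 + 1 = 2 * k - 1 - 0 := by omega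
          rwa [e1] at h1
      | succ j ih =>
        intro hj
        obtain ⟨e', he', hT, c, hc, hd, hdc⟩ := ih (by omega)
        have hZz : Z (2 * k - 1 - j) = 0 := hZb _ (by omega)
        rw [hZz, zero_add] at hd
        obtain ⟨g, hg, f, hf, hgf⟩ := D.sym j e' he' hT
        obtain ⟨f1, hf1, hsd⟩ := D.sq_d j g hg
        -- `dM g = 0`
        have hdg : D.dM g = 0 := by
          refine D.sq_zero (j + 1) (D.dM g) (f1 + (D.dA f + c)) (D.Kdm j g hg)
            ((D.KA _).add_mem hf1 ((D.KA _).add_mem (D.Kd j f hf) hc)) ?_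
          have h1 : D.dA e' = D.dA (D.sq g) + D.N (D.dA f) := by
            rw [hgf, map_add]; congr 1; exact D.dA_N f
          rw [hd, hsd] at h1
          -- N c = sq (dM g) + N f1 + N (dA f)
          have h2 : D.sq (D.dM g) + (D.N f1 + (D.N (D.dA f) + D.N c)) = 0 := by
            have : D.sq (D.dM g) + (D.N f1 + (D.N (D.dA f) + D.N c))
                = (D.sq (D.dM g) + (f1 + D.T f1) + D.N (D.dA f)) + D.N c := by
              unfold N; abel
            rw [this, ← h1, D.two]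
          rw [← D.N_add, ← D.N_add] at h2
          exact D.eq_of_add h2
        -- `g` is a coboundary modulo nothing
        obtain ⟨f2, hf2, h, hh, hEq⟩ : ∃ f2 ∈ D.KA j, ∃ h : 𝔸, D.dA h = 0 ∧
            e' = h + D.N f2 := by
          rcases Nat.eq_zero_or_pos j with h0 | h0
          · subst h0
            have hg0 : g = 0 := hM 0 (by omega) g hg hdg
            obtain ⟨f3, hf3, h3⟩ := D.sq_add 0 0 0 (D.KM 0).zero_mem (D.KM 0).zero_mem
            rw [add_zero, D.two, zero_add] at h3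
            refine ⟨f3 + f, (D.KA 0).add_mem hf3 hf, 0, map_zero _, ?_⟩
            rw [hgf, hg0, h3, D.N_add, zero_add]; rfl
          · obtain ⟨j', rfl⟩ : ∃ j', j = j' + 1 := ⟨j - 1, by omega⟩
            obtain ⟨y, hy, hyg⟩ := hM (j' + 1) (by omega) g hg hdg
            obtain ⟨f3, hf3, h3⟩ := D.sq_d j' y hy
            rw [hyg] at h3
            refine ⟨f3 + f, (D.KA _).add_mem hf3 hf, D.dA (D.sq y),
              D.dd _ _ (D.Ksq _ _ hy), ?_⟩
            rw [hgf, h3, D.N_add]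
            have : D.sq g + (f3 + D.T f3) + (D.N f3 + D.N f) =
              D.sq g + (f + D.T f) + ((f3 + D.T f3) + (f3 + D.T f3)) := by unfold N; abel
            rw [this, D.two, add_zero]
        have hde : D.dA e' = D.N (D.dA f2) := by rw [hEq, map_add, hh, zero_add, D.dA_N]
        refine ⟨c + D.dA f2, (D.KA _).add_mem hc (D.Kd j f2 hf2), ?_, e (2 * k - 2 - (j + 1)),
          ?_, ?_, rfl⟩
        · rw [← D.N_eq_zero, D.N_add, ← hde, hd, D.two]
        · have := he (2 * k - 2 - (j + 1)) (by omega)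
          have e1 : 2 * k - 1 - (2 * k - 2 - (j + 1)) = j + 1 + 1 := by omega
          rwa [e1] at this
        · rw [map_add, D.dd _ _ hf2, add_zero, hdc]
          have h1 := hes (2 * k - 2 - (j + 1)) (by omega)
          have e1 : 2 * k - 2 - (j + 1) + 1 = 2 * k - 1 - (j + 1) := by omega
          have e2 : 2 * k - 2 - j = 2 * k - 2 - (j + 1) + 1 := by omega
          rw [e2, h1, e1]
    obtain ⟨e', he', hT, c, hc, hd, -⟩ := key (k - 1) (by omega)
    have e1 : 2 * k - 1 - (k - 1) = k := by omega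
    rw [e1, hZk] at hd
    obtain ⟨g, hg, f, hf, hgf⟩ := D.sym (k - 1) e' he' hT
    obtain ⟨f1, hf1, hsd⟩ := D.sq_d (k - 1) g hg
    have e2 : k - 1 + 1 = k := by omega
    rw [e2] at hf1 hc
    have hdg : D.dM g ∈ D.KM k := by have := D.Kdm (k - 1) g hg; rwa [e2] at this
    have hdf : D.dA f ∈ D.KA k := by have := D.Kd (k - 1) f hf; rwa [e2] at this
    obtain ⟨f4, hf4, h4⟩ := D.sq_add k x (D.dM g) hx hdg
    have h0 : x + D.dM g = 0 := by
      refine D.sq_zero k _ (f4 + (f1 + (D.dA f + c))) ((D.KM k).add_mem hx hdg)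
        ((D.KA k).add_mem hf4 ((D.KA k).add_mem hf1 ((D.KA k).add_mem hdf hc))) ?_
      have h1 : D.dA e' = D.dA (D.sq g) + D.N (D.dA f) := by
        rw [hgf, map_add]; congr 1; exact D.dA_N f
      rw [hd, hsd] at h1
      have h2 : D.sq x + D.sq (D.dM g) + (D.N f1 + (D.N (D.dA f) + D.N c)) = 0 := by
        have : D.sq x + D.sq (D.dM g) + (D.N f1 + (D.N (D.dA f) + D.N c))
            = (D.sq (D.dM g) + (f1 + D.T f1) + D.N (D.dA f)) + (D.sq x + D.N c) := by
          unfold N; abel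
        rw [this, ← h1, D.two]
      rw [← D.N_add, ← D.N_add] at h2
      have h3 := D.eq_of_add h2
      rw [h4, h3]
      change _ = D.N _
      rw [D.N_add f4]
      unfold N; abel
    refine ⟨g, hg, ?_⟩
    have h5 : D.dM g + D.dM g = 0 := D.twoM _
    have h6 : x + D.dM g = D.dM g + D.dM g := by rw [h0, h5]
    exact (add_right_cancel h6).symm

end TD

end Pool.Agent.H68.TL
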