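import Pool.Agent.H68.TL.Cell

/-!
# Adjointness of `dlt` and `bdy` over a division ring with involution
-/

namespace Pool.Agent.H68.TL

open Finset

set_option linter.unusedSectionVars false

variable {V X Γ : Type} [DecidableEq V] [Group Γ] [MulAction Γ X]

namespace CC

variable (C : CC V X Γ)

section sums

variable [Fintype (Orb X Γ)] {B : Type} [AddCommMonoid B]

/-- the involution of the orbits induced by `tau v` -/
def tauO (v : V) (q : Orb X Γ) : Orb X Γ :=
  Quotient.map (sa := MulAction.orbitRel Γ X) (sb := MulAction.orbitRel Γ X) (C.tau v) (by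
    rintro x y ⟨g, hg⟩
    refine ⟨g, ?_⟩
    change g • C.tau v y = C.tau v x
    rw [C.smul_tau]
    exact congrArg (C.tau v) hg) q

lemma tauO_orb (v : V) (x : X) : C.tauO v (orb Γ x) = orb Γ (C.tau v x) := rfl

lemma tauO_tauO (v : V) (q : Orb X Γ) : C.tauO v (C.tauO v q) = q := by
  rw [← orb_rv q, tauO_orb, tauO_orb, C.tau_tau]

include C in
lemma inv_rv {G : X → B} (hG : ∀ (g : Γ) x, G (g • x) = G x) (x : X) :
    G (rv (orb Γ x)) = G x := by
  conv_rhs => rw [← C.gg_rv x, hG]

/-- invariance of the sum over the orbits -/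
lemma sum_tau (v : V) {G : X → B} (hG : ∀ (g : Γ) x, G (g • x) = G x) :
    ∑ q : Orb X Γ, G (C.tau v (rv q)) = ∑ q : Orb X Γ, G (rv q) := by
  refine Fintype.sum_equiv ⟨C.tauO v, C.tauO v, C.tauO_tauO v, C.tauO_tauO v⟩ _ _ (fun q => ?_)
  change G (C.tau v (rv q)) = G (rv (C.tauO v q))
  conv_rhs => rw [← orb_rv q, tauO_orb, C.inv_rv hG]

end sums

section form

variable {D : Type} [DivisionRing D] [StarRing D]

/-- `D` with the left action through `u` -/
def DL (_u : Γ →* Dˣ) : Type := D

variable (u : Γ →* Dˣ)

/-- the underlying element -/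
def DL.val {u : Γ →* Dˣ} (d : DL u) : D := d

/-- an element of `D` as element of `DL u` -/
def DL.of (u : Γ →* Dˣ) (d : D) : DL u := d

instance : AddCommGroup (DL u) := inferInstanceAs (AddCommGroup D)

instance : DistribMulAction Γ (DL u) where
  smul g d := DL.of u ((u g : D) * d.val)
  one_smul d := by
    change ((u 1 : Dˣ) : D) * d.val = d.val
    rw [map_one]; simp
  mul_smul g h d := by
    change ((u (g * h) : Dˣ) : D) * d.val = (u g : D) * ((u h : D) * d.val)
    rw [map_mul, Units.val_mul, mul_assoc]
  smul_zero g := mul_zero (u g : D)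
  smul_add g a b := mul_add (u g : D) a.val b.val

instance : Module Dᵐᵒᵖ (DL u) := inferInstanceAs (Module Dᵐᵒᵖ D)

lemma DL.val_add {u : Γ →* Dˣ} (a b : DL u) : (a + b).val = a.val + b.val := rfl

lemma DL.val_smul (g : Γ) (d : DL u) : (g • d).val = (u g : D) * d.val := rfl

lemma DL.val_zero : (0 : DL u).val = 0 := rfl

lemma DL.val_sum {ι : Type} (s : Finset ι) (f : ι → DL u) :
    (∑ i ∈ s, f i).val = ∑ i ∈ s, (f i).val := rfl

variable [Fintype (Orb X Γ)] [Fintype V]

noncomputable instance (m : ℕ) : Fintype (C.Cell m) := by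
  classical
  unfold Cell
  exact Fintype.ofFinite _

/-- the hermitian form on `m`-cochains -/
noncomputable def form (m : ℕ) (f g : X → Finset V → DL u) : D :=
  ∑ p : C.Cell m, star (C.ev m f p).val * (C.ev m g p).val

/-- the vertex has coordinates `false` on `s` -/
def Low (s : Finset V) (x : X) : Prop := ∀ v ∈ s, C.crd x v = false

open Classical in
lemma sum_cell {B : Type} [AddCommMonoid B] (m : ℕ) (F : Orb X Γ → Finset V → B)
    (hF : ∀ q s, ¬ (C.Clq s ∧ s.card = m) → F q s = 0) :
    ∑ p : C.Cell m, F p.1.1 p.1.2 =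
      ∑ s : Finset V, ∑ q : Orb X Γ, if C.Low s (rv q) then F q s else 0 := by
  rw [sum_comm, ← sum_product' (f := fun q s => if C.Low s (rv q) then F q s else 0)]
  have h1 : ∀ p : Orb X Γ × Finset V, (if C.Low p.2 (rv p.1) then F p.1 p.2 else 0) =
      if (C.Clq p.2 ∧ p.2.card = m ∧ ∀ v ∈ p.2, C.crd (rv p.1) v = false) then F p.1 p.2
      else 0 := by
    intro p
    by_cases h : C.Clq p.2 ∧ p.2.card = m
    · by_cases h2 : C.Low p.2 (rv p.1)
      · rw [if_pos h2, if_pos ⟨h.1, h.2, h2⟩]
      · rw [if_neg h2, if_neg (fun h' => h2 h'.2.2)]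
    · rw [hF _ _ h]; simp
  rw [sum_congr rfl (fun p _ => h1 p), ← sum_filter]
  symm
  refine sum_subtype _ (fun p => ?_) (fun p : Orb X Γ × Finset V => F p.1 p.2)
  simp

variable {u} (hu : ∀ g, star (u g : D) = ((u g)⁻¹ : Dˣ))

include hu in
lemma star_inv (g : Γ) (a b : DL u) :
    star (g • a).val * (g • b).val = star a.val * b.val := by
  rw [DL.val_smul, DL.val_smul, star_mul, hu, mul_assoc, ← mul_assoc ((u g)⁻¹ : Dˣ).val,
    Units.inv_mul, one_mul]

include hu in
/-- adjointness -/
theorem form_dlt {m : ℕ} {f g : X → Finset V → DL u} (hf : f ∈ C.K (DL u) m)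
    (hg : g ∈ C.K (DL u) (m + 1)) : C.form u (m + 1) (C.dlt f) g = C.form u m f (bdy g) := by
  classical
  have hL : C.form u (m + 1) (C.dlt f) g = ∑ s : Finset V, ∑ q : Orb X Γ,
      if C.Low s (rv q) then star (C.dlt f (rv q) s).val * (g (rv q) s).val else 0 := by
    refine C.sum_cell (m + 1) (fun q s => star (C.dlt f (rv q) s).val * (g (rv q) s).val) ?_
    intro q s h
    rw [K_zero hg h, DL.val_zero, mul_zero]
  have hR : C.form u m f (bdy g) = ∑ s : Finset V, ∑ q : Orb X Γ,
      if C.Low s (rv q) then star (f (rv q) s).val * (bdy g (rv q) s).val else 0 := by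
    refine C.sum_cell m (fun q s => star (f (rv q) s).val * (bdy g (rv q) s).val) ?_
    intro q s h
    rw [K_zero hf h, DL.val_zero, star_zero, zero_mul]
  rw [hL, hR]
  -- the value of a pair
  let Φ : Finset V → V → D := fun t v => ∑ q : Orb X Γ,
    if C.Low (t.erase v) (rv q) then star (f (rv q) (t.erase v)).val * (g (rv q) t).val else 0
  have h1 : ∀ t : Finset V, (∑ q : Orb X Γ,
      if C.Low t (rv q) then star (C.dlt f (rv q) t).val * (g (rv q) t).val else 0) =
      ∑ v ∈ t, Φ t v := by
    intro t
    by_cases ht : C.Clq t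
    · have e1 : ∀ q : Orb X Γ, (if C.Low t (rv q) then
          star (C.dlt f (rv q) t).val * (g (rv q) t).val else 0) =
          ∑ v ∈ t, ((if C.Low t (rv q) then
            star (f (rv q) (t.erase v)).val * (g (rv q) t).val else 0) +
            (if C.Low t (rv q) then
            star (f (C.tau v (rv q)) (t.erase v)).val * (g (rv q) t).val else 0)) := by
        intro q
        by_cases h : C.Low t (rv q)
        · simp only [if_pos h]
          rw [C.dlt_clq ht, DL.val_sum, star_sum, sum_mul]
          refine sum_congr rfl fun v _ => ?_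
          rw [DL.val_add, star_add, add_mul]
        · simp only [if_neg h]; simp
      rw [sum_congr rfl (fun q _ => e1 q), sum_comm]
      refine sum_congr rfl fun v hv => ?_
      rw [sum_add_distrib]
      -- move the second sum by `tau v`
      let G : X → D := fun x => if C.Low t x then
        star (f (C.tau v x) (t.erase v)).val * (g x t).val else 0
      have hG : ∀ (h : Γ) x, G (h • x) = G x := by
        intro h x
        have h3 : C.Low t (h • x) ↔ C.Low t x := by
          unfold Low; rw [C.smul_crd]
        simp only [G, h3, ← C.smul_tau, K_smul hf, K_smul hg, star_inv hu]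
      have e2 : ∑ q : Orb X Γ, (if C.Low t (rv q) then
            star (f (C.tau v (rv q)) (t.erase v)).val * (g (rv q) t).val else 0) =
          ∑ q : Orb X Γ, (if C.Low t (C.tau v (rv q)) then
            star (f (rv q) (t.erase v)).val * (g (rv q) t).val else 0) := by
        have := C.sum_tau v hG
        rw [← this]
        refine sum_congr rfl fun q _ => ?_
        simp only [G]
        rw [C.tau_tau, K_tau hg ht hv]
      rw [e2, ← sum_add_distrib]
      refine sum_congr rfl fun q _ => ?_
      -- exactly one of the two vertices is low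
      have h4 : C.Low (t.erase v) (C.tau v (rv q)) ↔ C.Low (t.erase v) (rv q) := by
        unfold Low
        refine forall_congr' fun a => ?_
        refine imp_congr_right fun ha => ?_
        rw [C.crd_ne a v _ (mem_erase.1 ha).1]
      have h5 : ∀ x, C.Low t x ↔ C.crd x v = false ∧ C.Low (t.erase v) x := by
        intro x
        constructor
        · intro h; exact ⟨h v hv, fun a ha => h a (mem_erase.1 ha).2⟩
        · rintro ⟨h, h'⟩ a ha
          by_cases hav : a = v
          · rw [hav]; exact h
          · exact h' a (mem_erase.2 ⟨hav, ha⟩)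
      rw [h5 (rv q), h5 (C.tau v (rv q)), h4, C.crd_self]
      by_cases h6 : C.Low (t.erase v) (rv q)
      · cases h7 : C.crd (rv q) v
        · simp [h6]
        · simp [h6]
      · simp [h6]
    · -- not a clique: both sides vanish
      have h6 : ∀ x, (g x t).val = 0 := fun x => by
        rw [K_zero hg (fun h' => ht h'.1)]; rfl
      simp only [Φ, h6, mul_zero, ite_self, sum_const_zero]
  rw [sum_congr rfl (fun t _ => h1 t)]
  have h2 : ∀ s : Finset V, (∑ q : Orb X Γ,
      if C.Low s (rv q) then star (f (rv q) s).val * (bdy g (rv q) s).val else 0) =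
      ∑ v ∈ univ.filter (· ∉ s), Φ (insert v s) v := by
    intro s
    simp only [Φ]
    rw [sum_comm]
    refine sum_congr rfl fun q _ => ?_
    have h7 : ∀ v ∈ univ.filter (· ∉ s), (insert v s).erase v = s := fun v hv =>
      erase_insert (by simpa using hv)
    rw [sum_congr rfl (fun v hv => by rw [h7 v hv])]
    by_cases h : C.Low s (rv q)
    · simp only [if_pos h]
      rw [bdy_apply, DL.val_sum, mul_sum]
    · simp only [if_neg h]; simp
  rw [sum_congr rfl (fun s _ => h2 s)]
  clear_value Φ
  rw [sum_sigma', sum_sigma']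
  refine sum_bij' (i := fun (p : (_ : Finset V) × V) _ => (⟨p.1.erase p.2, p.2⟩ : (_ : Finset V) × V))
    (j := fun (p : (_ : Finset V) × V) _ => (⟨insert p.2 p.1, p.2⟩ : (_ : Finset V) × V))
    ?_ ?_ ?_ ?_ ?_
  · rintro ⟨t, v⟩ h; simp at h ⊢
  · rintro ⟨s, v⟩ h; simp at h ⊢
  · rintro ⟨t, v⟩ h
    simp only [mem_sigma, mem_univ, true_and] at h
    simp [insert_erase h]
  · rintro ⟨s, v⟩ h
    simp only [mem_sigma, mem_univ, mem_filter, true_and] at h
    simp [erase_insert h]
  · rintro ⟨t, v⟩ h
    simp only [mem_sigma, mem_univ, true_and] at h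
    simp [insert_erase h]

end form

end CC

end Pool.Agent.H68.TL
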