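import Pool.Agent.H68.TL.Adj

/-!
# Exactness of `dlt` at `m` implies exactness of `bdy` at `m` (division ring coefficients)
-/

namespace Pool.Agent.H68.TL

open Finset

set_option linter.unusedSectionVars false

variable {V X Γ : Type} [DecidableEq V] [Group Γ] [MulAction Γ X]

namespace CC

variable (C : CC V X Γ)
variable {D : Type} [DivisionRing D] [StarRing D] {u : Γ →* Dˣ}
variable [Fintype (Orb X Γ)] [Fintype V]
variable (hu : ∀ g, star (u g : D) = ((u g)⁻¹ : Dˣ))

/-- `DL u` as right `D`-module: the action of `D` -/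
lemma DL.val_op_smul (d : Dᵐᵒᵖ) (a : DL u) : (d • a).val = a.val * d.unop := rfl

lemma smul_op (g : Γ) (d : Dᵐᵒᵖ) (a : DL u) : g • (d • a) = d • (g • a) :=
  (mul_assoc (u g : D) a.val d.unop).symm

/-- `K m` is closed under the right multiplication by `D` -/
lemma K_op {m : ℕ} {f : X → Finset V → DL u} (h : f ∈ C.K (DL u) m) (d : Dᵐᵒᵖ) :
    d • f ∈ C.K (DL u) m := by
  refine ⟨fun x s h0 => ?_, fun x s v hs hv => ?_, fun g x s => ?_⟩
  · exact K_supp (x := x) h (fun h1 => h0 (by
      change d • f x s = 0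
      rw [h1, smul_zero]))
  · change d • f (C.tau v x) s = d • f x s
    rw [K_tau h hs hv]
  · change d • f (g • x) s = g • (d • f x s)
    rw [K_smul h, smul_op]

lemma bdy_op (d : Dᵐᵒᵖ) (f : X → Finset V → DL u) : bdy (d • f) = d • bdy f := by
  funext x s
  change ∑ v ∈ univ.filter (· ∉ s), d • f x (insert v s) = d • ∑ v ∈ univ.filter (· ∉ s), f x (insert v s)
  rw [smul_sum]

/-- nondegeneracy -/
lemma form_nondeg {m : ℕ} {f : X → Finset V → DL u} (hf : f ∈ C.K (DL u) m)
    (h : ∀ y ∈ C.K (DL u) m, C.form u m f y = 0) : f = 0 := by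
  classical
  apply C.ev_inj hf (C.K (DL u) m).zero_mem
  funext p
  have h1 := h (C.mkc m (fun q => if q = p then DL.of u 1 else 0)) (C.mkc_mem _)
  unfold form at h1
  rw [C.ev_mkc, sum_eq_single p] at h1
  · rw [if_pos rfl] at h1
    have h2 : star (C.ev m f p).val = 0 := by
      have : (DL.of u (1 : D)).val = 1 := rfl
      rwa [this, mul_one] at h1
    have h3 : (C.ev m f p).val = 0 := by
      have := congrArg star h2
      rwa [star_star, star_zero] at this
    exact h3
  · intro q _ hq
    rw [if_neg hq, DL.val_zero, mul_zero]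
  · intro h'; exact absurd (mem_univ _) h'

include hu in
/-- exactness transfers from `dlt` to `bdy` -/
theorem exb_of_ex (m : ℕ) (h : Ex (C.K (DL u)) (C.dlt (M := DL u)) m) : C.Exb (DL u) m := by
  classical
  intro g hg hbg
  -- the image of `bdy` in coordinates
  let P : Submodule Dᵐᵒᵖ (C.Cell m → DL u) :=
    { carrier := {w | ∃ y ∈ C.K (DL u) (m + 1), C.ev m (bdy y) = w}
      zero_mem' := ⟨0, (C.K (DL u) (m + 1)).zero_mem, by rw [map_zero]; rfl⟩
      add_mem' := by
        rintro _ _ ⟨y, hy, rfl⟩ ⟨z, hz, rfl⟩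
        exact ⟨y + z, (C.K (DL u) (m + 1)).add_mem hy hz, by rw [map_add]; rfl⟩
      smul_mem' := by
        rintro d _ ⟨y, hy, rfl⟩
        exact ⟨d • y, C.K_op hy d, by rw [bdy_op]; rfl⟩ }
  by_contra hne
  have hP : C.ev m g ∉ P := by
    rintro ⟨y, hy, hyg⟩
    exact hne ⟨y, hy, C.ev_inj (bdy_mem hy) hg hyg⟩
  obtain ⟨φ, hφ, hφP⟩ := Submodule.exists_le_ker_of_notMem hP
  -- the representing cochain
  let c : C.Cell m → D := fun p => (φ (Pi.single p (DL.of u 1))).unop
  have hφc : ∀ w : C.Cell m → DL u, (φ w).unop = ∑ p, c p * (w p).val := by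
    intro w
    have hw : w = ∑ p, (MulOpposite.op (w p).val) • (Pi.single p (DL.of u 1) : C.Cell m → DL u) := by
      funext q
      rw [Finset.sum_apply, sum_eq_single q]
      · change w q = MulOpposite.op (w q).val • (Pi.single q (DL.of u 1) : C.Cell m → DL u) q
        rw [Pi.single_eq_same]
        change (w q).val = 1 * (w q).val
        rw [one_mul]
      · intro p _ hp
        change MulOpposite.op (w p).val • (Pi.single p (DL.of u 1) : C.Cell m → DL u) q = 0
        rw [Pi.single_eq_of_ne hp.symm, smul_zero]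
      · intro h'; exact absurd (mem_univ _) h'
    conv_lhs => rw [hw, map_sum]
    rw [Finset.unop_sum]
    refine sum_congr rfl fun p _ => ?_
    rw [map_smul]
    rfl
  let f : X → Finset V → DL u := C.mkc m (fun p => DL.of u (star (c p)))
  have hf : f ∈ C.K (DL u) m := C.mkc_mem _
  have hform : ∀ x : X → Finset V → DL u, C.form u m f x = (φ (C.ev m x)).unop := by
    intro x
    unfold form
    rw [hφc]
    refine sum_congr rfl fun p _ => ?_
    have h1 : C.ev m f = fun p => DL.of u (star (c p)) := C.ev_mkc _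
    rw [h1]
    change star (star (c p)) * _ = _
    rw [star_star]
  -- `dlt f = 0`
  have hdf : C.dlt f = 0 := by
    apply C.form_nondeg (C.dlt_mem hf)
    intro y hy
    rw [C.form_dlt hu hf hy, hform]
    have : φ (C.ev m (bdy y)) = 0 := hφP ⟨y, hy, rfl⟩
    rw [this]; rfl
  apply hφ
  have goal0 : C.form u m f g = 0 := by
    cases m with
    | zero =>
      have hf0 : f = 0 := h f hf hdf
      rw [hf0]
      unfold form
      refine sum_eq_zero fun p _ => ?_
      change star (0 : D) * _ = 0
      rw [star_zero, zero_mul]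
    | succ m =>
      obtain ⟨e, he, hef⟩ := h f hf hdf
      rw [← hef, C.form_dlt hu he hg, hbg]
      unfold form
      refine sum_eq_zero fun p _ => ?_
      change _ * (0 : D) = 0
      rw [mul_zero]
  rw [hform] at goal0
  exact MulOpposite.unop_injective goal0

end CC

end Pool.Agent.H68.TL
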