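import Mathlib

/-!
# Equivariant cochains of a cube complex with free group action

`X` is the set of vertices, `tau v` the reflection in direction `v`, a cube is a pair `(x, s)`
with `s` a clique, up to `x ~ tau v x`, `v ∈ s`.
-/

namespace Pool.Agent.H68.TL

open Finset

set_option linter.unusedSectionVars false

/-- a cube complex with vertex set `X`, directions `V`, and a free action of `Γ` -/
structure CC (V X Γ : Type) [Group Γ] [MulAction Γ X] where
  adj : V → V → Prop
  tau : V → X → X
  crd : X → V → Bool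
  tau_tau : ∀ v x, tau v (tau v x) = x
  tau_comm : ∀ u v x, adj u v → tau u (tau v x) = tau v (tau u x)
  crd_self : ∀ v x, crd (tau v x) v = !(crd x v)
  crd_ne : ∀ u v x, u ≠ v → crd (tau v x) u = crd x u
  smul_tau : ∀ (g : Γ) v x, g • tau v x = tau v (g • x)
  smul_crd : ∀ (g : Γ) x, crd (g • x) = crd x
  free : ∀ (g : Γ) (x : X), g • x = x → g = 1

variable {V X Γ : Type} [DecidableEq V] [Group Γ] [MulAction Γ X]

namespace CC

variable (C : CC V X Γ)

/-- cliques -/
def Clq (s : Finset V) : Prop := ∀ u ∈ s, ∀ v ∈ s, u ≠ v → C.adj u v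

lemma Clq.mono {C : CC V X Γ} {s t : Finset V} (h : C.Clq t) (hs : s ⊆ t) : C.Clq s :=
  fun u hu v hv hne => h u (hs hu) v (hs hv) hne

/-- one normalisation step -/
noncomputable def st (v : V) (x : X) : X := if C.crd x v then C.tau v x else x

/-- the vertex of the cube `(x, l)` with coordinates `false` on `l` -/
noncomputable def rp : List V → X → X
  | [], x => x
  | v :: l, x => rp l (C.st v x)

lemma st_tau (v : V) (x : X) : C.st v (C.tau v x) = C.st v x := by
  unfold st
  rw [C.crd_self]
  cases h : C.crd x v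
  · simp [C.tau_tau]
  · simp

lemma st_tau_ne {u v : V} (h : C.adj u v) (hne : u ≠ v) (x : X) :
    C.st v (C.tau u x) = C.tau u (C.st v x) := by
  unfold st
  rw [C.crd_ne v u x hne.symm]
  split_ifs
  · rw [C.tau_comm u v x h]
  · rfl

lemma st_smul (g : Γ) (v : V) (x : X) : C.st v (g • x) = g • C.st v x := by
  unfold st
  rw [C.smul_crd]
  split_ifs
  · rw [C.smul_tau]
  · rfl

lemma rp_smul (g : Γ) (l : List V) (x : X) : C.rp l (g • x) = g • C.rp l x := by
  induction l generalizing x with
  | nil => rfl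
  | cons v l ih => unfold rp; rw [C.st_smul, ih]

lemma rp_tau (l : List V) (hl : l.Nodup) (hc : ∀ u ∈ l, ∀ v ∈ l, u ≠ v → C.adj u v)
    {v : V} (hv : v ∈ l) (x : X) : C.rp l (C.tau v x) = C.rp l x := by
  induction l generalizing x with
  | nil => simp at hv
  | cons a l ih =>
    unfold rp
    rw [List.nodup_cons] at hl
    rcases List.mem_cons.1 hv with rfl | hv'
    · rw [C.st_tau]
    · have hne : v ≠ a := by rintro rfl; exact hl.1 hv'
      rw [C.st_tau_ne (hc v hv a List.mem_cons_self hne) hne]
      exact ih hl.2 (fun u hu v hv => hc u (List.mem_cons_of_mem _ hu) v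
        (List.mem_cons_of_mem _ hv)) hv' _

lemma rp_inv {α : Type} (f : X → α) (l : List V) (hf : ∀ v ∈ l, ∀ x, f (C.tau v x) = f x)
    (x : X) : f (C.rp l x) = f x := by
  induction l generalizing x with
  | nil => rfl
  | cons a l ih =>
    unfold rp
    rw [ih (fun v hv => hf v (List.mem_cons_of_mem _ hv))]
    unfold st
    split_ifs
    · exact hf a List.mem_cons_self x
    · rfl

lemma rp_crd (l : List V) (hl : l.Nodup) {v : V} (hv : v ∈ l) (x : X) :
    C.crd (C.rp l x) v = false := by
  induction l generalizing x with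
  | nil => simp at hv
  | cons a l ih =>
    unfold rp
    rw [List.nodup_cons] at hl
    rcases List.mem_cons.1 hv with rfl | hv'
    · rw [C.rp_inv (fun y => C.crd y v) l (fun u hu y => C.crd_ne v u y (by
        rintro rfl; exact hl.1 hu))]
      unfold st
      split_ifs with h
      · rw [C.crd_self, h]; rfl
      · simpa using h
    · exact ih hl.2 hv' _

lemma clq_list {s : Finset V} (hs : C.Clq s) :
    ∀ u ∈ s.toList, ∀ v ∈ s.toList, u ≠ v → C.adj u v := by
  intro u hu v hv
  rw [Finset.mem_toList] at hu hv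
  exact hs u hu v hv

/-- orbit representatives: `x = g x • r x`, `r (h • x) = r x`, `g (h • x) = h * g x` -/
lemma exists_orbit_rep (C : CC V X Γ) : ∃ (r : X → X) (g : X → Γ), (∀ x, g x • r x = x) ∧
    (∀ (h : Γ) x, r (h • x) = r x) ∧ ∀ (h : Γ) x, g (h • x) = h * g x := by
  classical
  let r : X → X := fun x => (Quotient.mk (MulAction.orbitRel Γ X) x).out
  have hr : ∀ x, ∃ g : Γ, g • r x = x := by
    intro x
    have h1 : (MulAction.orbitRel Γ X).r (r x) x := Quotient.mk_out (s := MulAction.orbitRel Γ X) x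
    have h2 : (MulAction.orbitRel Γ X).r x (r x) := (MulAction.orbitRel Γ X).symm h1
    obtain ⟨g, hg⟩ := h2
    exact ⟨g, hg⟩
  choose g hg using hr
  have hr2 : ∀ (h : Γ) x, r (h • x) = r x := by
    intro h x
    have h1 : Quotient.mk (MulAction.orbitRel Γ X) (h • x)
        = Quotient.mk (MulAction.orbitRel Γ X) x := by
      apply Quotient.sound
      exact ⟨h, rfl⟩
    change (Quotient.mk (MulAction.orbitRel Γ X) (h • x)).out = _
    rw [h1]
  refine ⟨r, g, hg, hr2, ?_⟩
  intro h x
  have h1 : g (h • x) • r x = h • x := by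
    have := hg (h • x)
    rwa [hr2] at this
  have h2 : ((h * g x)⁻¹ * g (h • x)) • r x = r x := by
    rw [mul_smul, h1, mul_inv_rev, mul_smul, ← mul_smul h⁻¹, inv_mul_cancel, one_smul]
    exact inv_smul_eq_iff.2 (hg x).symm
  have h3 := C.free _ _ h2
  rw [inv_mul_eq_one] at h3
  exact h3.symm

lemma rp_self (l : List V) (x : X) (h : ∀ v ∈ l, C.crd x v = false) : C.rp l x = x := by
  induction l with
  | nil => rfl
  | cons v l ih =>
    unfold rp
    have : C.st v x = x := by unfold st; rw [h v List.mem_cons_self]; simp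
    rw [this]
    exact ih (fun v hv => h v (List.mem_cons_of_mem _ hv))

/-- the set of orbits of vertices -/
abbrev Orb (X Γ : Type) [Group Γ] [MulAction Γ X] : Type := MulAction.orbitRel.Quotient Γ X

/-- the orbit of a vertex -/
def orb (Γ : Type) [Group Γ] [MulAction Γ X] (x : X) : Orb X Γ :=
  Quotient.mk (MulAction.orbitRel Γ X) x

/-- the chosen vertex of an orbit -/
noncomputable def rv (q : Orb X Γ) : X := Quotient.out q

lemma orb_rv (q : Orb X Γ) : orb Γ (rv q) = q := Quotient.out_eq q

lemma orb_smul (g : Γ) (x : X) : orb Γ (g • x) = orb Γ x :=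
  Quotient.sound (s := MulAction.orbitRel Γ X) ⟨g, rfl⟩

lemma orb_eq {x y : X} (h : orb Γ x = orb Γ y) : ∃ g : Γ, g • y = x :=
  Quotient.exact (s := MulAction.orbitRel Γ X) h

/-- the group element moving the chosen vertex of the orbit of `x` to `x` -/
lemma exists_gg (C : CC V X Γ) : ∃ g : X → Γ, (∀ x, g x • rv (orb Γ x) = x) ∧
    (∀ (h : Γ) x, g (h • x) = h * g x) ∧ ∀ q : Orb X Γ, g (rv q) = 1 := by
  have hr : ∀ x : X, ∃ g : Γ, g • rv (orb Γ x) = x := by
    intro x
    have h1 : orb Γ x = orb Γ (rv (orb Γ x)) := (orb_rv _).symm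
    exact orb_eq h1
  choose g hg using hr
  have key : ∀ (h : Γ) x, g (h • x) = h * g x := by
    intro h x
    have h1 : g (h • x) • rv (orb Γ x) = h • x := by
      have := hg (h • x)
      rwa [orb_smul] at this
    have h2 : ((h * g x)⁻¹ * g (h • x)) • rv (orb Γ x) = rv (orb Γ x) := by
      rw [mul_smul, h1, mul_inv_rev, mul_smul, ← mul_smul h⁻¹, inv_mul_cancel, one_smul]
      exact inv_smul_eq_iff.2 (hg x).symm
    have h3 := C.free _ _ h2
    rw [inv_mul_eq_one] at h3
    exact h3.symm
  refine ⟨g, hg, key, fun q => ?_⟩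
  have h1 := hg (rv q)
  rw [orb_rv] at h1
  exact C.free _ _ h1

/-- the group element moving the chosen vertex of the orbit of `x` to `x` -/
noncomputable def gg (x : X) : Γ := C.exists_gg.choose x

lemma gg_rv (x : X) : C.gg x • rv (orb Γ x) = x := C.exists_gg.choose_spec.1 x

lemma gg_smul (h : Γ) (x : X) : C.gg (h • x) = h * C.gg x := C.exists_gg.choose_spec.2.1 h x

lemma gg_one (q : Orb X Γ) : C.gg (rv q) = 1 := C.exists_gg.choose_spec.2.2 q

lemma crd_rv (x : X) : C.crd (rv (orb Γ x)) = C.crd x := by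
  conv_rhs => rw [← C.gg_rv x, C.smul_crd]

end CC

end Pool.Agent.H68.TL
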