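import Pool.Agent.H68.TL.Coch

/-!
# Coordinates for equivariant cochains: `K m ≃ (cells mod Γ → M)`; the boundary `bdy`
-/

namespace Pool.Agent.H68.TL

open Finset

set_option linter.unusedSectionVars false

variable {V X Γ : Type} [DecidableEq V] [Group Γ] [MulAction Γ X]

namespace CC

variable (C : CC V X Γ)

/-- representatives of the `m`-cells modulo `Γ` -/
def Cell (m : ℕ) : Type :=
  {p : Orb X Γ × Finset V // C.Clq p.2 ∧ p.2.card = m ∧ ∀ v ∈ p.2, C.crd (rv p.1) v = false}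

variable {M : Type} [AddCommGroup M] [DistribMulAction Γ M]

variable {C} in
/-- coordinates -/
lemma K_coord {m : ℕ} {f : X → Finset V → M} (h : f ∈ C.K M m) {s : Finset V} (hs : C.Clq s)
    (x : X) : f x s = C.gg (C.rp s.toList x) • f (rv (orb Γ (C.rp s.toList x))) s := by
  rw [← K_smul h, C.gg_rv]
  exact (C.rp_inv (fun y => f y s) s.toList
    (fun v hv y => K_tau h hs (mem_toList.1 hv) y) x).symm

open Classical in
/-- the cochain with given coordinates -/
noncomputable def mkc (m : ℕ) (φ : C.Cell m → M) : X → Finset V → M := fun x s =>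
  if h : C.Clq s ∧ s.card = m then
    C.gg (C.rp s.toList x) • φ ⟨(orb Γ (C.rp s.toList x), s), h.1, h.2, fun v hv => by
      rw [C.crd_rv]; exact C.rp_crd s.toList s.nodup_toList (mem_toList.2 hv) x⟩
  else 0

lemma mkc_pos {m : ℕ} (φ : C.Cell m → M) {x : X} {s : Finset V} (h : C.Clq s ∧ s.card = m) :
    C.mkc m φ x s = C.gg (C.rp s.toList x) • φ ⟨(orb Γ (C.rp s.toList x), s), h.1, h.2,
      fun v hv => by
        rw [C.crd_rv]; exact C.rp_crd s.toList s.nodup_toList (mem_toList.2 hv) x⟩ := dif_pos h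

lemma mkc_neg {m : ℕ} (φ : C.Cell m → M) {x : X} {s : Finset V} (h : ¬ (C.Clq s ∧ s.card = m)) :
    C.mkc m φ x s = 0 := dif_neg h

lemma cell_congr {m : ℕ} (φ : C.Cell m → M) {q q' : Orb X Γ} {s : Finset V} (h : q = q')
    (hq : C.Clq s ∧ s.card = m ∧ ∀ v ∈ s, C.crd (rv q) v = false)
    (hq' : C.Clq s ∧ s.card = m ∧ ∀ v ∈ s, C.crd (rv q') v = false) :
    φ ⟨(q, s), hq⟩ = φ ⟨(q', s), hq'⟩ := by subst h; rfl

lemma mkc_mem {m : ℕ} (φ : C.Cell m → M) : C.mkc m φ ∈ C.K M m := by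
  refine ⟨fun x s h0 => ?_, fun x s v hs hv => ?_, fun g x s => ?_⟩
  · by_contra h; exact h0 (C.mkc_neg φ h)
  · by_cases h : C.Clq s ∧ s.card = m
    · rw [C.mkc_pos φ h, C.mkc_pos φ h]
      have h1 := C.rp_tau s.toList s.nodup_toList (C.clq_list h.1) (mem_toList.2 hv) x
      exact congrArg₂ (· • ·) (by rw [h1]) (C.cell_congr φ (by rw [h1]) _ _)
    · rw [C.mkc_neg φ h, C.mkc_neg φ h]
  · by_cases h : C.Clq s ∧ s.card = m
    · rw [C.mkc_pos φ h, C.mkc_pos φ h]
      have h1 := C.rp_smul g s.toList x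
      rw [← mul_smul]
      exact congrArg₂ (· • ·) (by rw [h1, C.gg_smul])
        (C.cell_congr φ (by rw [h1, orb_smul]) _ _)
    · rw [C.mkc_neg φ h, C.mkc_neg φ h, smul_zero]

/-- evaluation on the representatives -/
noncomputable def ev (m : ℕ) (f : X → Finset V → M) : C.Cell m → M := fun p => f (rv p.1.1) p.1.2

lemma ev_mkc {m : ℕ} (φ : C.Cell m → M) : C.ev m (C.mkc m φ) = φ := by
  funext ⟨⟨q, s⟩, h⟩
  change C.mkc m φ (rv q) s = _
  rw [C.mkc_pos φ ⟨h.1, h.2.1⟩]
  have h1 : C.rp s.toList (rv q) = rv q := C.rp_self _ _ (fun v hv => h.2.2 v (mem_toList.1 hv))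
  have h2 : C.gg (C.rp s.toList (rv q)) = 1 := by rw [h1, C.gg_one]
  rw [h2, one_smul]
  exact C.cell_congr φ (by rw [h1, orb_rv]) _ _

lemma mkc_ev {m : ℕ} {f : X → Finset V → M} (hf : f ∈ C.K M m) : C.mkc m (C.ev m f) = f := by
  funext x s
  by_cases h : C.Clq s ∧ s.card = m
  · rw [C.mkc_pos _ h, K_coord hf h.1 x]; rfl
  · rw [C.mkc_neg _ h, K_zero hf h]

lemma ev_inj {m : ℕ} {f g : X → Finset V → M} (hf : f ∈ C.K M m) (hg : g ∈ C.K M m)
    (h : C.ev m f = C.ev m g) : f = g := by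
  rw [← C.mkc_ev hf, h, C.mkc_ev hg]

section bdy

variable [Fintype V]

/-- the boundary -/
def bdy : (X → Finset V → M) →+ (X → Finset V → M) where
  toFun f x s := ∑ v ∈ univ.filter (· ∉ s), f x (insert v s)
  map_zero' := by funext x s; simp
  map_add' f g := by funext x s; simp only [Pi.add_apply]; rw [sum_add_distrib]

lemma bdy_apply (f : X → Finset V → M) (x : X) (s : Finset V) :
    bdy f x s = ∑ v ∈ univ.filter (· ∉ s), f x (insert v s) := rfl

variable {C} in
lemma bdy_mem {m : ℕ} {f : X → Finset V → M} (h : f ∈ C.K M (m + 1)) : bdy f ∈ C.K M m := by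
  refine ⟨fun x s h0 => ?_, fun x s u hs hu => ?_, fun g x s => ?_⟩
  · rw [bdy_apply] at h0
    obtain ⟨v, hv, hv2⟩ := exists_ne_zero_of_sum_ne_zero h0
    have h1 := K_supp h hv2
    refine ⟨h1.1.mono (subset_insert v s), ?_⟩
    have := h1.2
    rw [card_insert_of_notMem (by simpa using hv)] at this
    omega
  · rw [bdy_apply, bdy_apply]
    refine sum_congr rfl fun v _ => ?_
    by_cases hc : C.Clq (insert v s)
    · exact K_tau h hc (mem_insert_of_mem hu) x
    · rw [K_zero h (fun h' => hc h'.1), K_zero h (fun h' => hc h'.1)]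
  · rw [bdy_apply, bdy_apply, smul_sum]
    exact sum_congr rfl fun v _ => K_smul h g x _

/-- exactness of `bdy` at `m` (at `m = 0`: surjectivity) -/
def Exb (C : CC V X Γ) (M : Type) [AddCommGroup M] [DistribMulAction Γ M] (m : ℕ) : Prop :=
  ∀ f ∈ C.K M m, bdy f = 0 → ∃ g ∈ C.K M (m + 1), bdy g = f

lemma bdy_zero_deg {f : X → Finset V → M} (h : f ∈ C.K M 0) : bdy f = 0 := by
  funext x s
  rw [bdy_apply]
  refine sum_eq_zero fun v _ => K_zero h (fun h' => ?_) x
  have := h'.2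
  rw [card_eq_zero] at this
  exact (insert_ne_empty v s) this

end bdy

end CC

end Pool.Agent.H68.TL
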