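import Pool.Agent.H68.TL.Basic
import Pool.Agent.H68.TL.Abs

/-!
# Equivariant cochains: degree `m` cochains, coboundary, lifting
-/

namespace Pool.Agent.H68.TL

open Finset

set_option linter.unusedSectionVars false

variable {V X Γ : Type} [DecidableEq V] [Group Γ] [MulAction Γ X]

namespace CC

variable (C : CC V X Γ)

section K

variable (M : Type) [AddCommGroup M] [DistribMulAction Γ M]

/-- equivariant cochains of degree `m` -/
def K (m : ℕ) : AddSubgroup (X → Finset V → M) where
  carrier := {f | (∀ x s, f x s ≠ 0 → C.Clq s ∧ s.card = m) ∧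
    (∀ x s v, C.Clq s → v ∈ s → f (C.tau v x) s = f x s) ∧ ∀ (g : Γ) x s, f (g • x) s = g • f x s}
  zero_mem' := ⟨fun _ _ h => absurd rfl h, fun _ _ _ _ _ => rfl, fun g _ _ => (smul_zero g).symm⟩
  add_mem' := by
    rintro a b ⟨h1, h2, h3⟩ ⟨h1', h2', h3'⟩
    refine ⟨fun x s h => ?_, fun x s v hs hv => ?_, fun g x s => ?_⟩
    · by_cases h0 : a x s = 0
      · exact h1' x s (fun h' => h (by simp [h0, h']))
      · exact h1 x s h0
    · simp only [Pi.add_apply]; rw [h2 x s v hs hv, h2' x s v hs hv]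
    · simp only [Pi.add_apply]; rw [h3, h3', smul_add]
  neg_mem' := by
    rintro a ⟨h1, h2, h3⟩
    refine ⟨fun x s h => h1 x s (fun h' => h (by simp [h'])), fun x s v hs hv => ?_,
      fun g x s => ?_⟩
    · simp only [Pi.neg_apply]; rw [h2 x s v hs hv]
    · simp only [Pi.neg_apply]; rw [h3, smul_neg]

variable {M} {C}

lemma K_supp {m : ℕ} {f : X → Finset V → M} (h : f ∈ C.K M m) {x : X} {s : Finset V}
    (h0 : f x s ≠ 0) : C.Clq s ∧ s.card = m := h.1 x s h0

lemma K_zero {m : ℕ} {f : X → Finset V → M} (h : f ∈ C.K M m) {s : Finset V}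
    (h0 : ¬ (C.Clq s ∧ s.card = m)) (x : X) : f x s = 0 := by
  by_contra h1; exact h0 (h.1 x s h1)

lemma K_tau {m : ℕ} {f : X → Finset V → M} (h : f ∈ C.K M m) {s : Finset V}
    (hs : C.Clq s) {v : V} (hv : v ∈ s) (x : X) : f (C.tau v x) s = f x s := h.2.1 x s v hs hv

lemma K_smul {m : ℕ} {f : X → Finset V → M} (h : f ∈ C.K M m) (g : Γ) (x : X) (s : Finset V) :
    f (g • x) s = g • f x s := h.2.2 g x s

end K

section dlt

variable {M : Type} [AddCommGroup M]

open Classical in
/-- coboundary -/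
noncomputable def dlt : (X → Finset V → M) →+ (X → Finset V → M) where
  toFun f x t := if C.Clq t then ∑ v ∈ t, (f x (t.erase v) + f (C.tau v x) (t.erase v)) else 0
  map_zero' := by funext x t; simp
  map_add' f g := by
    funext x t
    simp only [Pi.add_apply]
    split_ifs
    · rw [← sum_add_distrib]
      refine sum_congr rfl fun v _ => ?_
      abel
    · simp

lemma dlt_clq {t : Finset V} (ht : C.Clq t) (f : X → Finset V → M) (x : X) :
    C.dlt f x t = ∑ v ∈ t, (f x (t.erase v) + f (C.tau v x) (t.erase v)) := if_pos ht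

lemma dlt_not {t : Finset V} (ht : ¬ C.Clq t) (f : X → Finset V → M) (x : X) :
    C.dlt f x t = 0 := if_neg ht

variable [DistribMulAction Γ M]

lemma dlt_mem {m : ℕ} {f : X → Finset V → M} (h : f ∈ C.K M m) : C.dlt f ∈ C.K M (m + 1) := by
  refine ⟨fun x t h0 => ?_, fun x t u ht hu => ?_, fun g x t => ?_⟩
  · by_cases ht : C.Clq t
    · refine ⟨ht, ?_⟩
      rw [C.dlt_clq ht] at h0
      obtain ⟨v, hv, hv2⟩ := exists_ne_zero_of_sum_ne_zero h0
      have hc : (t.erase v).card = m := by
        by_cases h1 : f x (t.erase v) = 0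
        · rw [h1, zero_add] at hv2
          exact (K_supp h hv2).2
        · exact (K_supp h h1).2
      rw [card_erase_of_mem hv] at hc
      have : 0 < t.card := card_pos.2 ⟨v, hv⟩
      omega
    · exact absurd (C.dlt_not ht f x) h0
  · rw [C.dlt_clq ht, C.dlt_clq ht]
    refine sum_congr rfl fun v hv => ?_
    have hce : C.Clq (t.erase v) := ht.mono (erase_subset v t)
    by_cases huv : u = v
    · subst huv
      rw [C.tau_tau, add_comm]
    · rw [K_tau h hce (mem_erase.2 ⟨huv, hu⟩), ← C.tau_comm u v x (ht u hu v hv huv),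
        K_tau h hce (mem_erase.2 ⟨huv, hu⟩)]
  · by_cases ht : C.Clq t
    · rw [C.dlt_clq ht, C.dlt_clq ht, smul_sum]
      refine sum_congr rfl fun v hv => ?_
      rw [K_smul h, ← C.smul_tau, K_smul h, smul_add]
    · rw [C.dlt_not ht, C.dlt_not ht, smul_zero]

lemma dlt_dlt (two : ∀ a : M, a + a = 0) {m : ℕ} {f : X → Finset V → M} (h : f ∈ C.K M m) :
    C.dlt (C.dlt f) = 0 := by
  funext x t
  by_cases ht : C.Clq t
  · rw [C.dlt_clq ht]
    have h1 : ∀ v ∈ t, C.dlt f x (t.erase v) + C.dlt f (C.tau v x) (t.erase v) =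
        ∑ u ∈ t.erase v, ((f x ((t.erase v).erase u) + f (C.tau u x) ((t.erase v).erase u)) +
          (f (C.tau v x) ((t.erase v).erase u) +
            f (C.tau u (C.tau v x)) ((t.erase v).erase u))) := by
      intro v hv
      rw [C.dlt_clq (ht.mono (erase_subset v t)), C.dlt_clq (ht.mono (erase_subset v t)),
        ← sum_add_distrib]
    rw [sum_congr rfl h1, sum_sigma']
    refine sum_involution (fun p _ => ⟨p.2, p.1⟩) ?_ ?_ ?_ ?_
    · rintro ⟨v, u⟩ hp
      simp only [mem_sigma, mem_erase] at hp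
      simp only
      rw [erase_right_comm, C.tau_comm u v x (ht u hp.2.2 v hp.1 hp.2.1)]
      generalize f x ((t.erase u).erase v) = a
      generalize f (C.tau u x) ((t.erase u).erase v) = b
      generalize f (C.tau v x) ((t.erase u).erase v) = c
      generalize f (C.tau v (C.tau u x)) ((t.erase u).erase v) = d
      have : a + b + (c + d) + (a + c + (b + d)) = (a + a) + (b + b) + (c + c) + (d + d) := by abel
      rw [this]; simp only [two, add_zero]
    · rintro ⟨v, u⟩ hp _ heq
      simp only [mem_sigma, mem_erase] at hp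
      have : u = v := congrArg Sigma.fst heq
      exact hp.2.1 this
    · rintro ⟨v, u⟩ hp
      simp only [mem_sigma, mem_erase] at hp ⊢
      exact ⟨hp.2.2, fun h => hp.2.1 h.symm, hp.1⟩
    · rintro ⟨v, u⟩ _
      rfl
  · exact C.dlt_not ht _ x

end dlt

section lift

variable {A B : Type} [AddCommGroup A] [DistribMulAction Γ A] [AddCommGroup B]
  [DistribMulAction Γ B]

/-- lifting of cochains through an equivariant additive map -/
lemma lift (φ : A → B) (hφ : ∀ (g : Γ) a, φ (g • a) = g • φ a) (hφ0 : φ 0 = 0) {m : ℕ}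
    {w : X → Finset V → B} (hw : w ∈ C.K B m) (hr : ∀ x s, C.Clq s → ∃ a, φ a = w x s) :
    ∃ f ∈ C.K A m, ∀ x s, φ (f x s) = w x s := by
  classical
  obtain ⟨r, g, hg, hr2, hg2⟩ := C.exists_orbit_rep
  choose! p hp using hr
  refine ⟨fun x s => if C.Clq s ∧ s.card = m then
    g (C.rp s.toList x) • p (r (C.rp s.toList x)) s else 0, ⟨?_, ?_, ?_⟩, ?_⟩
  · intro x s h
    by_contra h0
    exact h (if_neg h0)
  · intro x s v hs hv
    by_cases h : C.Clq s ∧ s.card = m
    · simp only [if_pos h]
      rw [C.rp_tau s.toList s.nodup_toList (C.clq_list h.1) (mem_toList.2 hv)]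
    · simp only [if_neg h]
  · intro h x s
    by_cases hs : C.Clq s ∧ s.card = m
    · simp only [if_pos hs]
      rw [C.rp_smul, hr2, hg2, mul_smul]
    · simp only [if_neg hs]
      rw [smul_zero]
  · intro x s
    by_cases hs : C.Clq s ∧ s.card = m
    · simp only [if_pos hs]
      rw [hφ, hp _ _ hs.1, ← K_smul hw, hg]
      exact C.rp_inv (fun y => w y s) s.toList
        (fun v hv y => K_tau hw hs.1 (mem_toList.1 hv) y) x
    · simp only [if_neg hs]
      rw [hφ0, K_zero hw hs]

end lift

end CC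

end Pool.Agent.H68.TL
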