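import Pool.Agent.H68.TL.Euler
import Pool.Agent.H75.Davis.Cox

/-!
# The Davis complex of a right-angled Coxeter group as a cube complex with free action
-/

namespace Pool.Agent.H68.TL

open Finset Pool.Agent.H75.Davis

set_option linter.unusedSectionVars false

variable {V : Type} [DecidableEq V] {adj : V → V → Prop} {W : Type} [Group W]
variable (R : RData V adj W) (Γ : Subgroup W) (hΓ : ∀ w, w ∈ Γ ↔ ∀ u, R.χ u w = 1)

/-- the Davis complex with the action of the commutator subgroup -/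
noncomputable def davis : CC V W Γ where
  adj := adj
  tau v x := x * R.s v
  crd x v := decide (R.χ v x = -1)
  tau_tau v x := by rw [mul_assoc, R.sq, mul_one]
  tau_comm u v x h := by rw [mul_assoc, mul_assoc, R.comm u v h]
  crd_self v x := by
    rw [map_mul, R.χ_self]
    rcases Int.units_eq_one_or (R.χ v x) with h | h <;> rw [h] <;> decide
  crd_ne u v x h := by rw [map_mul, R.χ_ne u v h, mul_one]
  smul_tau g v x := by
    change (g : W) * (x * R.s v) = (g : W) * x * R.s v
    rw [mul_assoc]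
  smul_crd g x := by
    funext v
    change decide (R.χ v ((g : W) * x) = -1) = _
    rw [map_mul, (hΓ g).1 g.2 v, one_mul]
  free g x h := by
    have h1 : (g : W) * x = x := h
    exact Subtype.ext (by simpa using h1)

lemma davis_adj : (davis R Γ hΓ).adj = adj := rfl

lemma davis_clq (s : Finset V) : (davis R Γ hΓ).Clq s ↔ ∀ u ∈ s, ∀ v ∈ s, u ≠ v → adj u v :=
  Iff.rfl

/-- the coordinates of an orbit -/
noncomputable def crdO (q : CC.Orb W Γ) : V → Bool := (davis R Γ hΓ).crd (CC.rv q)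

lemma crd_unit (x : W) (v : V) : R.χ v x = if (davis R Γ hΓ).crd x v then -1 else 1 := by
  change _ = if decide (R.χ v x = -1) then (-1 : ℤˣ) else 1
  rcases Int.units_eq_one_or (R.χ v x) with h | h <;> rw [h] <;> decide

lemma crdO_injective : Function.Injective (crdO R Γ hΓ) := by
  intro q q' h
  rw [← CC.orb_rv q, ← CC.orb_rv q']
  have h1 : CC.rv q * (CC.rv q')⁻¹ ∈ Γ := by
    rw [hΓ]
    intro u
    rw [map_mul, map_inv, crd_unit R Γ hΓ, crd_unit R Γ hΓ]
    have : (davis R Γ hΓ).crd (CC.rv q) u = (davis R Γ hΓ).crd (CC.rv q') u := congrFun h u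
    rw [this, mul_inv_cancel]
  have h2 : CC.rv q = (⟨_, h1⟩ : Γ) • CC.rv q' := by
    change _ = CC.rv q * (CC.rv q')⁻¹ * CC.rv q'
    rw [inv_mul_cancel_right]
  rw [h2, CC.orb_smul]

variable [Fintype V]

lemma crd_surj (S : Finset V) : ∃ x : W, ∀ v, (davis R Γ hΓ).crd x v = decide (v ∈ S) := by
  induction S using Finset.induction_on with
  | empty =>
    refine ⟨1, fun v => ?_⟩
    change decide (R.χ v 1 = -1) = _
    rw [map_one]; simp
  | insert a S ha ih =>
    obtain ⟨x, hx⟩ := ih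
    refine ⟨x * R.s a, fun v => ?_⟩
    by_cases h : v = a
    · subst h
      have := (davis R Γ hΓ).crd_self v x
      change (davis R Γ hΓ).crd ((davis R Γ hΓ).tau v x) v = _
      rw [this, hx]
      simp [ha]
    · have := (davis R Γ hΓ).crd_ne v a x h
      change (davis R Γ hΓ).crd ((davis R Γ hΓ).tau a x) v = _
      rw [this, hx]
      simp [h]

lemma crdO_surjective : Function.Surjective (crdO R Γ hΓ) := by
  intro ξ
  obtain ⟨x, hx⟩ := crd_surj R Γ hΓ (univ.filter (fun v => ξ v = true))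
  refine ⟨CC.orb Γ x, ?_⟩
  funext v
  change (davis R Γ hΓ).crd (CC.rv (CC.orb Γ x)) v = ξ v
  rw [(davis R Γ hΓ).crd_rv, hx]
  simp

/-- orbits are sign vectors -/
noncomputable def orbEquiv : CC.Orb W Γ ≃ (V → Bool) :=
  Equiv.ofBijective _ ⟨crdO_injective R Γ hΓ, crdO_surjective R Γ hΓ⟩

/-- finitely many orbits -/
noncomputable def fintypeOrb : Fintype (CC.Orb W Γ) := Fintype.ofEquiv _ (orbEquiv R Γ hΓ).symm

lemma card_fun (s : Finset V) :
    Fintype.card {ξ : V → Bool // ∀ v ∈ s, ξ v = false} = 2 ^ (Fintype.card V - s.card) := by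
  have e : {ξ : V → Bool // ∀ v ∈ s, ξ v = false} ≃ ({v // v ∉ s} → Bool) :=
    { toFun := fun ξ v => ξ.1 v.1
      invFun := fun η => ⟨fun v => if h : v ∈ s then false else η ⟨v, h⟩, fun v hv => by simp [hv]⟩
      left_inv := by
        rintro ⟨ξ, h⟩
        apply Subtype.ext
        funext v
        by_cases hv : v ∈ s
        · simp [hv, h v hv]
        · simp [hv]
      right_inv := by
        intro η
        funext ⟨v, hv⟩
        simp [hv] }
  rw [Fintype.card_congr e, Fintype.card_fun, Fintype.card_bool]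
  congr 1
  rw [Fintype.card_subtype_compl, Fintype.card_coe]

open Classical in
/-- number of cells modulo the group -/
lemma card_cell [Fintype (CC.Orb W Γ)] (m : ℕ) : Fintype.card ((davis R Γ hΓ).Cell m) =
    2 ^ (Fintype.card V - m) *
      (univ.filter (fun s : Finset V => (davis R Γ hΓ).Clq s ∧ s.card = m)).card := by
  have e : (davis R Γ hΓ).Cell m ≃ Σ s : {s : Finset V // (davis R Γ hΓ).Clq s ∧ s.card = m},
      {ξ : V → Bool // ∀ v ∈ s.1, ξ v = false} :=
    { toFun := fun p => ⟨⟨p.1.2, p.2.1, p.2.2.1⟩, ⟨crdO R Γ hΓ p.1.1, p.2.2.2⟩⟩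
      invFun := fun p => ⟨((orbEquiv R Γ hΓ).symm p.2.1, p.1.1), p.1.2.1, p.1.2.2, fun v hv => by
        have h1 : crdO R Γ hΓ ((orbEquiv R Γ hΓ).symm p.2.1) = p.2.1 :=
          (orbEquiv R Γ hΓ).apply_symm_apply p.2.1
        change crdO R Γ hΓ _ v = false
        rw [h1]
        exact p.2.2 v hv⟩
      left_inv := by
        rintro ⟨⟨q, s⟩, h⟩
        apply Subtype.ext
        refine Prod.ext ?_ rfl
        exact (orbEquiv R Γ hΓ).symm_apply_apply q
      right_inv := by
        rintro ⟨⟨s, hs⟩, ⟨ξ, hξ⟩⟩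
        have h1 : crdO R Γ hΓ ((orbEquiv R Γ hΓ).symm ξ) = ξ :=
          (orbEquiv R Γ hΓ).apply_symm_apply ξ
        refine Sigma.ext rfl ?_
        rw [heq_eq_eq]
        exact Subtype.ext h1 }
  rw [Fintype.card_congr e, Fintype.card_sigma]
  have h1 : ∀ s : {s : Finset V // (davis R Γ hΓ).Clq s ∧ s.card = m},
      Fintype.card {ξ : V → Bool // ∀ v ∈ s.1, ξ v = false} = 2 ^ (Fintype.card V - m) := by
    intro s
    rw [card_fun, s.2.2]
  rw [sum_congr rfl (fun s _ => h1 s), sum_const, smul_eq_mul, mul_comm, card_univ,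
    Fintype.card_subtype]

open Classical in
/-- the Euler characteristic inequality -/
theorem davis_euler {D : Type} [DivisionRing D] (u : Γ →* Dˣ) (two : ∀ a : D, a + a = 0) (n : ℕ)
    (hex : ∀ m, m ≠ n → Ex ((davis R Γ hΓ).K (CC.DL u)) ((davis R Γ hΓ).dlt (M := CC.DL u)) m) :
    0 ≤ (-1 : ℚ) ^ n *
      ∑ s ∈ univ.filter (fun s : Finset V => (davis R Γ hΓ).Clq s), (-1 / 2 : ℚ) ^ s.card := by
  let _ : Fintype (CC.Orb W Γ) := fintypeOrb R Γ hΓ
  set N := Fintype.card V with hN
  have hM : IsEmpty ((davis R Γ hΓ).Cell (N + 1)) := by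
    refine ⟨fun p => ?_⟩
    have h1 := p.2.2.1
    have h2 := card_le_univ p.1.2
    omega
  have h := (davis R Γ hΓ).euler u two n hex N hM
  have h1 : ((∑ m ∈ range (N + 1), (-1 : ℤ) ^ m *
      (Fintype.card ((davis R Γ hΓ).Cell m) : ℤ) : ℤ) : ℚ) = 2 ^ N *
      ∑ s ∈ univ.filter (fun s : Finset V => (davis R Γ hΓ).Clq s), (-1 / 2 : ℚ) ^ s.card := by
    rw [mul_sum]
    have h3 : ∀ s ∈ univ.filter (fun s : Finset V => (davis R Γ hΓ).Clq s),
        s.card ∈ range (N + 1) := by
      intro s _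
      rw [mem_range]
      have := card_le_univ s
      omega
    rw [← sum_fiberwise_of_maps_to h3, Int.cast_sum]
    refine sum_congr rfl fun m hm => ?_
    rw [card_cell, filter_filter]
    have h4 : ∀ s ∈ univ.filter (fun s : Finset V => (davis R Γ hΓ).Clq s ∧ s.card = m),
        (2 : ℚ) ^ N * (-1 / 2) ^ s.card = 2 ^ N * (-1 / 2) ^ m := by
      intro s hs
      rw [(mem_filter.1 hs).2.2]
    rw [sum_congr rfl h4, sum_const, nsmul_eq_mul]
    push_cast
    have h5 : (2 : ℚ) ^ N = 2 ^ (N - m) * 2 ^ m := by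
      rw [← pow_add]
      congr 1
      have := mem_range.1 hm
      omega
    rw [h5, div_pow]
    have h6 : (2 : ℚ) ^ m ≠ 0 := by positivity
    rw [← hN]
    field_simp
  have h2 : (0 : ℚ) ≤ (-1 : ℚ) ^ n * ((∑ m ∈ range (N + 1), (-1 : ℤ) ^ m *
      (Fintype.card ((davis R Γ hΓ).Cell m) : ℤ) : ℤ) : ℚ) := by
    have := Int.cast_nonneg (R := ℚ) h
    push_cast at this ⊢
    exact this
  rw [h1] at h2
  have h7 : (0 : ℚ) < 2 ^ N := by positivity
  have h8 : (-1 : ℚ) ^ n * (2 ^ N * ∑ s ∈ univ.filter (fun s : Finset V => (davis R Γ hΓ).Clq s),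
      (-1 / 2 : ℚ) ^ s.card) = 2 ^ N * ((-1 : ℚ) ^ n *
      ∑ s ∈ univ.filter (fun s : Finset V => (davis R Γ hΓ).Clq s), (-1 / 2 : ℚ) ^ s.card) := by
    ring
  rw [h8] at h2
  exact nonneg_of_mul_nonneg_right h2 h7

end Pool.Agent.H68.TL
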