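import Pool.Agent.H68.TL.AdjEx

/-!
# Euler characteristic of the complex of equivariant cochains with division ring coefficients
-/

namespace Pool.Agent.H68.TL

open Finset

set_option linter.unusedSectionVars false

/-- numerical part -/
lemma euler_num (c r : ℕ → ℕ) (n : ℕ) (h0 : n ≠ 0 → c 0 = r 0) (h0' : r 0 ≤ c 0)
    (hs : ∀ m, m + 1 ≠ n → c (m + 1) = r (m + 1) + r m) (hs' : ∀ m, r (m + 1) + r m ≤ c (m + 1))
    (M : ℕ) (hM : r M = 0) :
    0 ≤ (-1 : ℤ) ^ n * ∑ m ∈ range (M + 1), (-1 : ℤ) ^ m * (c m : ℤ) := by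
  -- the excess
  obtain ⟨e, he⟩ : ∃ e : ℕ, c n = r n + (if n = 0 then 0 else r (n - 1)) + e := by
    cases n with
    | zero => exact ⟨c 0 - r 0, by simp; omega⟩
    | succ n =>
      refine ⟨c (n + 1) - (r (n + 1) + r n), ?_⟩
      have := hs' n
      simp; omega
  have key : ∀ K, ∑ m ∈ range (K + 1), (-1 : ℤ) ^ m * (c m : ℤ) =
      (-1) ^ K * (r K : ℤ) + (if n ≤ K then (-1) ^ n * (e : ℤ) else 0) := by
    intro K
    induction K with
    | zero =>
      rw [zero_add, sum_range_one]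
      by_cases h : n = 0
      · subst h
        simp only [if_true, Nat.add_zero] at he
        rw [he]; simp
      · rw [h0 h, if_neg (by omega)]; simp
    | succ K ih =>
      rw [sum_range_succ, ih]
      by_cases h : K + 1 = n
      · subst h
        rw [if_neg (by omega), if_pos le_rfl, he]
        rw [if_neg (by omega), Nat.add_sub_cancel]
        push_cast
        ring
      · rw [hs K h]
        by_cases h2 : n ≤ K
        · rw [if_pos h2, if_pos (by omega)]
          push_cast; ring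
        · rw [if_neg h2, if_neg (by omega)]
          push_cast; ring
  rw [key, hM]
  split_ifs
  · have h1 : ((-1 : ℤ) ^ n * (-1) ^ n) = 1 := by rw [← mul_pow]; simp
    have : (-1 : ℤ) ^ n * ((-1) ^ M * ((0 : ℕ) : ℤ) + (-1) ^ n * (e : ℤ)) =
      ((-1 : ℤ) ^ n * (-1) ^ n) * e := by push_cast; ring
    rw [this, h1, one_mul]
    positivity
  · simp

variable {V X Γ : Type} [DecidableEq V] [Group Γ] [MulAction Γ X]

namespace CC

variable (C : CC V X Γ)
variable {D : Type} [DivisionRing D] {u : Γ →* Dˣ}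

lemma dlt_op (d : Dᵐᵒᵖ) (f : X → Finset V → DL u) : C.dlt (d • f) = d • C.dlt f := by
  classical
  funext x t
  by_cases ht : C.Clq t
  · rw [C.dlt_clq ht]
    change _ = d • C.dlt f x t
    rw [C.dlt_clq ht, smul_sum]
    exact sum_congr rfl fun v _ => (smul_add d _ _).symm
  · rw [C.dlt_not ht]
    change _ = d • C.dlt f x t
    rw [C.dlt_not ht, smul_zero]

lemma mkc_add {M : Type} [AddCommGroup M] [DistribMulAction Γ M] (m : ℕ) (φ ψ : C.Cell m → M) :
    C.mkc m (φ + ψ) = C.mkc m φ + C.mkc m ψ := by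
  apply C.ev_inj (C.mkc_mem _) ((C.K M m).add_mem (C.mkc_mem _) (C.mkc_mem _))
  rw [C.ev_mkc]
  change _ = C.ev m (C.mkc m φ) + C.ev m (C.mkc m ψ)
  rw [C.ev_mkc, C.ev_mkc]

/-- the coboundary in coordinates -/
noncomputable def dc (u : Γ →* Dˣ) (m : ℕ) :
    (C.Cell m → DL u) →ₗ[Dᵐᵒᵖ] (C.Cell (m + 1) → DL u) where
  toFun φ := C.ev (m + 1) (C.dlt (C.mkc m φ))
  map_add' φ ψ := by rw [C.mkc_add, map_add]; rfl
  map_smul' d φ := by
    have h1 : C.mkc m (d • φ) = d • C.mkc m φ := by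
      apply C.ev_inj (C.mkc_mem _)
      · refine ⟨fun x s h0 => ?_, fun x s v hs hv => ?_, fun g x s => ?_⟩
        · exact K_supp (x := x) (C.mkc_mem φ) (fun h1 => h0 (by
            change d • C.mkc m φ x s = 0
            rw [h1, smul_zero]))
        · change d • C.mkc m φ (C.tau v x) s = d • C.mkc m φ x s
          rw [K_tau (C.mkc_mem φ) hs hv]
        · change d • C.mkc m φ (g • x) s = g • (d • C.mkc m φ x s)
          rw [K_smul (C.mkc_mem φ)]
          exact (mul_assoc (u g : D) (C.mkc m φ x s).val d.unop)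
      · rw [C.ev_mkc]
        change _ = d • C.ev m (C.mkc m φ)
        rw [C.ev_mkc]
    rw [h1, C.dlt_op]
    rfl

lemma dc_apply (m : ℕ) (φ : C.Cell m → DL u) :
    C.dc u m φ = C.ev (m + 1) (C.dlt (C.mkc m φ)) := rfl

variable [Fintype (Orb X Γ)] [Fintype V]

instance : Module.Finite Dᵐᵒᵖ (DL u) := by
  have e : Dᵐᵒᵖ ≃ₗ[Dᵐᵒᵖ] (DL u) :=
      { toFun := fun d => d.unop
        invFun := fun d => MulOpposite.op d.val
        map_add' := fun _ _ => rfl
        map_smul' := fun _ _ => rfl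
        left_inv := fun _ => rfl
        right_inv := fun _ => rfl }
  exact Module.Finite.equiv e

lemma finrank_cell (m : ℕ) : Module.finrank Dᵐᵒᵖ (C.Cell m → DL u) = Fintype.card (C.Cell m) := by
  have h1 : Module.finrank Dᵐᵒᵖ (DL u) = 1 := by
    have e : Dᵐᵒᵖ ≃ₗ[Dᵐᵒᵖ] (DL u) :=
      { toFun := fun d => d.unop
        invFun := fun d => MulOpposite.op d.val
        map_add' := fun _ _ => rfl
        map_smul' := fun _ _ => rfl
        left_inv := fun _ => rfl
        right_inv := fun _ => rfl }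
    rw [← e.finrank_eq, Module.finrank_self]
  rw [Module.finrank_pi_fintype]
  simp [h1]

variable (u) in
/-- Euler characteristic -/
theorem euler (two : ∀ a : D, a + a = 0) (n : ℕ) (hex : ∀ m, m ≠ n → Ex (C.K (DL u)) (C.dlt (M := DL u)) m)
    (M : ℕ) (hM : IsEmpty (C.Cell (M + 1))) :
    0 ≤ (-1 : ℤ) ^ n * ∑ m ∈ range (M + 1), (-1 : ℤ) ^ m * (Fintype.card (C.Cell m) : ℤ) := by
  let r : ℕ → ℕ := fun m => Module.finrank Dᵐᵒᵖ (LinearMap.range (C.dc u m))
  have hrn : ∀ m, r m + Module.finrank Dᵐᵒᵖ (LinearMap.ker (C.dc u m)) =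
      Fintype.card (C.Cell m) := by
    intro m
    rw [← C.finrank_cell (u := u)]
    exact LinearMap.finrank_range_add_finrank_ker (C.dc u m)
  have hker : ∀ m, LinearMap.range (C.dc u m) ≤ LinearMap.ker (C.dc u (m + 1)) := by
    rintro m _ ⟨φ, rfl⟩
    rw [LinearMap.mem_ker, C.dc_apply, C.dc_apply, C.mkc_ev (C.dlt_mem (C.mkc_mem φ)),
      C.dlt_dlt (M := DL u) two (C.mkc_mem φ)]
    rfl
  have hker' : ∀ m, m + 1 ≠ n → LinearMap.ker (C.dc u (m + 1)) ≤ LinearMap.range (C.dc u m) := by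
    intro m hm φ hφ
    rw [LinearMap.mem_ker, C.dc_apply] at hφ
    have h1 : C.dlt (C.mkc (m + 1) φ) = 0 :=
      C.ev_inj (C.dlt_mem (C.mkc_mem φ)) (C.K (DL u) _).zero_mem hφ
    obtain ⟨g, hg, hg2⟩ := hex (m + 1) hm _ (C.mkc_mem φ) h1
    refine ⟨C.ev m g, ?_⟩
    rw [C.dc_apply, C.mkc_ev hg, hg2, C.ev_mkc]
  refine euler_num _ r n ?_ ?_ ?_ ?_ M ?_
  · intro h
    have h2 : LinearMap.ker (C.dc u 0) = ⊥ := by
      rw [eq_bot_iff]
      intro φ hφ
      rw [LinearMap.mem_ker, C.dc_apply] at hφ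
      have h1 : C.dlt (C.mkc 0 φ) = 0 :=
        C.ev_inj (C.dlt_mem (C.mkc_mem φ)) (C.K (DL u) _).zero_mem hφ
      have h3 := hex 0 (Ne.symm h) _ (C.mkc_mem φ) h1
      have h4 := C.ev_mkc φ
      rw [h3] at h4
      exact h4.symm
    have := hrn 0
    rw [h2, finrank_bot] at this
    exact this.symm
  · have := hrn 0; omega
  · intro m hm
    have h1 := hrn (m + 1)
    have h2 : LinearMap.ker (C.dc u (m + 1)) = LinearMap.range (C.dc u m) :=
      le_antisymm (hker' m hm) (hker m)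
    rw [h2] at h1
    exact h1.symm
  · intro m
    have h1 := hrn (m + 1)
    have h2 := Submodule.finrank_mono (hker m)
    change r m ≤ _ at h2
    omega
  · have h1 : LinearMap.range (C.dc u M) = ⊥ := by
      rw [eq_bot_iff]
      rintro _ ⟨φ, rfl⟩
      have : C.dc u M φ = 0 := by
        funext p
        exact hM.elim p
      rw [this]; exact Submodule.zero_mem _
    change Module.finrank Dᵐᵒᵖ (LinearMap.range (C.dc u M)) = 0
    rw [h1, finrank_bot]

end CC

end Pool.Agent.H68.TL
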