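import Pool.Agent.H68.TL.Coch
import Pool.Agent.H98.Cup.Main

/-!
# The cohomological Tate lemma for equivariant cochains

If `H^m(M ⊗ M) = 0` for `m ≤ 2k` then `H^m(M) = 0` for `m ≤ k` (`M` a module over `F_2`).
-/

namespace Pool.Agent.H68.TL

open Finset

set_option linter.unusedSectionVars false

/-- the square of a module: `A = M ⊗ M` over `F_2` with the diagonal action -/
structure SqMod (Γ M A : Type) [Group Γ] [AddCommGroup M] [DistribMulAction Γ M]
    [AddCommGroup A] [DistribMulAction Γ A] where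
  β : M →+ M →+ A
  T : A →+ A
  twoM : ∀ m : M, m + m = 0
  two : ∀ a : A, a + a = 0
  TT : ∀ a, T (T a) = a
  Tβ : ∀ m n, T (β m n) = β n m
  smul_β : ∀ (g : Γ) m n, β (g • m) (g • n) = g • β m n
  smul_T : ∀ (g : Γ) a, T (g • a) = g • T a
  sym : ∀ a, T a = a → ∃ m b, a = β m m + (b + T b)
  zero : ∀ m b, β m m = b + T b → m = 0

variable {V X Γ : Type} [LinearOrder V] [Group Γ] [MulAction Γ X]
variable {M A : Type} [AddCommGroup M] [DistribMulAction Γ M] [AddCommGroup A]
  [DistribMulAction Γ A]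

namespace SqMod

variable (S : SqMod Γ M A)

/-- norm -/
def N (a : A) : A := a + S.T a

lemma N_add (a b : A) : S.N (a + b) = S.N a + S.N b := by
  unfold N; rw [map_add]; abel

lemma N_zero : S.N 0 = 0 := by simp [N]

lemma smul_N (g : Γ) (a : A) : S.N (g • a) = g • S.N a := by
  unfold N; rw [S.smul_T, smul_add]

lemma β_add (m n : M) : S.β (m + n) (m + n) = S.β m m + S.β n n + S.N (S.β m n) := by
  unfold N
  rw [S.Tβ]
  simp only [map_add, AddMonoidHom.add_apply]
  abel

include S in
lemma eq_of_add {a b : A} (h : a + b = 0) : a = b := by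
  have h2 := S.two b
  have : a + b = b + b := by rw [h, h2]
  exact add_right_cancel this

include S in
lemma eq_of_addM {a b : M} (h : a + b = 0) : a = b := by
  have h2 := S.twoM b
  have : a + b = b + b := by rw [h, h2]
  exact add_right_cancel this

/-- uniqueness of the symbol -/
lemma uniq {m n : M} {b c : A} (h : S.β m m + S.N b = S.β n n + S.N c) : m = n := by
  apply S.eq_of_addM
  refine S.zero _ (S.β m n + (b + c)) ?_
  rw [S.β_add]
  change _ = S.N _
  rw [S.N_add, S.N_add]
  have h1 : S.β m m + S.β n n = S.N b + S.N c := by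
    apply S.eq_of_add
    have : S.β m m + S.β n n + (S.N b + S.N c) = (S.β m m + S.N b) + (S.β n n + S.N c) := by abel
    rw [this, h, S.two]
  rw [h1]
  abel

/-- a square of a sum is the sum of the squares up to a norm -/
lemma β_sum {ι : Type} (s : Finset ι) (f : ι → M) :
    ∃ b, S.β (∑ i ∈ s, f i) (∑ i ∈ s, f i) = ∑ i ∈ s, S.β (f i) (f i) + S.N b := by
  classical
  induction s using Finset.induction_on with
  | empty => exact ⟨0, by simp [N_zero]⟩
  | insert a s ha ih =>
    obtain ⟨b, hb⟩ := ih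
    rw [sum_insert ha, sum_insert ha, S.β_add, hb]
    refine ⟨b + S.β (f a) (∑ i ∈ s, f i), ?_⟩
    rw [S.N_add]; abel

variable (C : CC V X Γ)

/-- norms lift -/
lemma lift_N {m : ℕ} {w : X → Finset V → A} (hw : w ∈ C.K A m)
    (h : ∀ x s, C.Clq s → ∃ b, w x s = S.N b) : ∃ f ∈ C.K A m, ∀ x s, w x s = f x s + S.T (f x s) := by
  obtain ⟨f, hf, h2⟩ := CC.lift (C := C) (fun a => S.N a) S.smul_N S.N_zero hw
    (fun x s hs => by obtain ⟨b, hb⟩ := h x s hs; exact ⟨b, hb.symm⟩)
  exact ⟨f, hf, fun x s => (h2 x s).symm⟩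

/-- the swap on cochains -/
def Tc : (X → Finset V → A) →+ (X → Finset V → A) where
  toFun a x s := S.T (a x s)
  map_zero' := by funext x s; simp
  map_add' a b := by funext x s; simp

lemma Tc_apply (a : X → Finset V → A) (x : X) (s : Finset V) : S.Tc a x s = S.T (a x s) := rfl

/-- the abstract data -/
noncomputable def td : TD (X → Finset V → A) (X → Finset V → M) where
  dA := C.dlt
  dM := C.dlt
  T := S.Tc
  sq z x s := S.β (z x s) (z x s)
  KA := C.K A
  KM := C.K M
  two a := by funext x s; exact S.two _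
  twoM a := by funext x s; exact S.twoM _
  TT a := by funext x s; exact S.TT _
  Td a := by
    funext x t
    rw [Tc_apply]
    by_cases ht : C.Clq t
    · rw [C.dlt_clq ht, C.dlt_clq ht, map_sum]
      refine sum_congr rfl fun v _ => ?_
      rw [map_add]; rfl
    · rw [C.dlt_not ht, C.dlt_not ht, map_zero]
  KT m a h := by
    refine ⟨fun x s h0 => ?_, fun x s v hs hv => ?_, fun g x s => ?_⟩
    · exact CC.K_supp (x := x) h (fun h1 => h0 (by rw [Tc_apply, h1, map_zero]))
    · rw [Tc_apply, Tc_apply, CC.K_tau h hs hv]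
    · rw [Tc_apply, Tc_apply, CC.K_smul h, S.smul_T]
  Kd m a h := C.dlt_mem h
  dd m a h := C.dlt_dlt S.two h
  Kdm m a h := C.dlt_mem h
  Ksq m z h := by
    refine ⟨fun x s h0 => ?_, fun x s v hs hv => ?_, fun g x s => ?_⟩
    · exact CC.K_supp (x := x) h (fun h1 => h0 (by simp only [h1, map_zero]))
    · simp only [CC.K_tau h hs hv]
    · simp only [CC.K_smul h]; exact S.smul_β g _ _
  sym m a h hT := by
    classical
    have hT' : ∀ x s, S.T (a x s) = a x s := fun x s => congrFun (congrFun hT x) s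
    choose z b hzb using fun x s => S.sym (a x s) (hT' x s)
    have hz : z ∈ C.K M m := by
      refine ⟨fun x s h0 => ?_, fun x s v hs hv => ?_, fun g x s => ?_⟩
      · apply CC.K_supp h (x := x) (s := s)
        intro h1
        apply h0
        have h2 := hzb x s
        rw [h1] at h2
        refine S.zero _ (b x s) ?_
        exact S.eq_of_add h2.symm
      · apply S.uniq (b := b (C.tau v x) s) (c := b x s)
        change S.β (z (C.tau v x) s) (z (C.tau v x) s) + (b (C.tau v x) s + S.T _) =
          S.β (z x s) (z x s) + (b x s + S.T _)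
        rw [← hzb, ← hzb, CC.K_tau h hs hv]
      · apply S.uniq (b := b (g • x) s) (c := g • b x s)
        rw [S.smul_β, S.smul_N, ← smul_add]
        change S.β (z (g • x) s) (z (g • x) s) + (b (g • x) s + S.T _) =
          g • (S.β (z x s) (z x s) + (b x s + S.T _))
        rw [← hzb, ← hzb, CC.K_smul h]
    have hsq : (fun x s => S.β (z x s) (z x s)) ∈ C.K A m := by
      refine ⟨fun x s h0 => ?_, fun x s v hs hv => ?_, fun g x s => ?_⟩
      · exact CC.K_supp (x := x) hz (fun h1 => h0 (by simp only [h1, map_zero]))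
      · simp only [CC.K_tau hz hs hv]
      · simp only [CC.K_smul hz]; exact S.smul_β g _ _
    obtain ⟨f, hf, hf2⟩ := S.lift_N C ((C.K A m).add_mem h hsq) (fun x s _ => ⟨b x s, by
      rw [Pi.add_apply, Pi.add_apply]
      conv_lhs => rw [hzb x s]
      change S.β (z x s) (z x s) + S.N (b x s) + S.β (z x s) (z x s) = S.N (b x s)
      rw [add_right_comm, S.two, zero_add]⟩)
    refine ⟨z, hz, f, hf, ?_⟩
    funext x s
    have h3 := hf2 x s
    rw [Pi.add_apply, Pi.add_apply] at h3
    change a x s = S.β (z x s) (z x s) + (f x s + S.T (f x s))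
    rw [← h3]
    rw [add_comm (a x s), ← add_assoc, S.two, zero_add]
  sq_add m z z' hz hz' := by
    refine ⟨fun x s => S.β (z x s) (z' x s), ⟨fun x s h0 => ?_, fun x s v hs hv => ?_,
      fun g x s => ?_⟩, ?_⟩
    · exact CC.K_supp (x := x) hz (fun h1 => h0 (by simp only [h1, map_zero, AddMonoidHom.zero_apply]))
    · simp only [CC.K_tau hz hs hv, CC.K_tau hz' hs hv]
    · simp only [CC.K_smul hz, CC.K_smul hz']; exact S.smul_β g _ _
    · funext x s
      exact S.β_add (z x s) (z' x s)
  sq_zero m z f hz hf h := by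
    funext x s
    refine S.zero _ (f x s) ?_
    exact congrFun (congrFun h x) s
  sq_d m z hz := by
    have hsq : (fun x s => S.β (z x s) (z x s)) ∈ C.K A m := by
      refine ⟨fun x s h0 => ?_, fun x s v hs hv => ?_, fun g x s => ?_⟩
      · exact CC.K_supp (x := x) hz (fun h1 => h0 (by simp only [h1, map_zero]))
      · simp only [CC.K_tau hz hs hv]
      · simp only [CC.K_smul hz]; exact S.smul_β g _ _
    have hdz := C.dlt_mem hz
    have hsq2 : (fun x s => S.β (C.dlt z x s) (C.dlt z x s)) ∈ C.K A (m + 1) := by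
      refine ⟨fun x s h0 => ?_, fun x s v hs hv => ?_, fun g x s => ?_⟩
      · exact CC.K_supp (x := x) hdz (fun h1 => h0 (by simp only [h1, map_zero]))
      · simp only [CC.K_tau hdz hs hv]
      · simp only [CC.K_smul hdz]; exact S.smul_β g _ _
    obtain ⟨f, hf, hf2⟩ := S.lift_N C ((C.K A (m + 1)).add_mem (C.dlt_mem hsq) hsq2)
      (fun x t ht => by
        rw [Pi.add_apply, Pi.add_apply, C.dlt_clq ht, C.dlt_clq ht]
        obtain ⟨b, hb⟩ := S.β_sum t (fun v => z x (t.erase v) + z (C.tau v x) (t.erase v))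
        refine ⟨b + ∑ v ∈ t, S.β (z x (t.erase v)) (z (C.tau v x) (t.erase v)), ?_⟩
        have hN : S.N (∑ v ∈ t, S.β (z x (t.erase v)) (z (C.tau v x) (t.erase v))) =
            ∑ v ∈ t, S.N (S.β (z x (t.erase v)) (z (C.tau v x) (t.erase v))) := by
          unfold N; rw [map_sum, ← sum_add_distrib]
        rw [hb, S.N_add, hN]
        have h1 : ∑ v ∈ t, S.β (z x (t.erase v) + z (C.tau v x) (t.erase v))
            (z x (t.erase v) + z (C.tau v x) (t.erase v)) =
            ∑ v ∈ t, (S.β (z x (t.erase v)) (z x (t.erase v)) +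
              S.β (z (C.tau v x) (t.erase v)) (z (C.tau v x) (t.erase v))) +
            ∑ v ∈ t, S.N (S.β (z x (t.erase v)) (z (C.tau v x) (t.erase v))) := by
          rw [← sum_add_distrib]
          exact sum_congr rfl fun v _ => S.β_add _ _
        rw [h1]
        generalize ∑ v ∈ t, (S.β (z x (t.erase v)) (z x (t.erase v)) +
              S.β (z (C.tau v x) (t.erase v)) (z (C.tau v x) (t.erase v))) = p
        generalize ∑ v ∈ t, S.N (S.β (z x (t.erase v)) (z (C.tau v x) (t.erase v))) = q
        generalize S.N b = r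
        have : p + (p + q + r) = (p + p) + (r + q) := by abel
        rw [this, S.two, zero_add])
    refine ⟨f, hf, ?_⟩
    funext x t
    have h3 := hf2 x t
    rw [Pi.add_apply, Pi.add_apply] at h3
    change C.dlt (fun x s => S.β (z x s) (z x s)) x t =
      S.β (C.dlt z x t) (C.dlt z x t) + (f x t + S.T (f x t))
    rw [← h3]
    rw [add_comm (C.dlt (fun x s => S.β (z x s) (z x s)) x t), ← add_assoc, S.two, zero_add]

/-- the cube complex of helper98 -/
def cubes (C : CC V X Γ) : Pool.Agent.H98.Cup.Cubes V X where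
  τ := C.tau
  crd := C.crd
  adj := C.adj
  τ_τ := C.tau_tau
  comm := C.tau_comm
  crd_same := C.crd_self
  crd_other := C.crd_ne

open Classical in
/-- the cup-i squares, cut off to the right degree -/
noncomputable def Z (m : ℕ) (z : X → Finset V → M) (i : ℕ) : X → Finset V → A := fun x s =>
  if C.Clq s ∧ s.card = 2 * m - i then (cubes C).cup (i : ℤ) S.β z z x s else 0

lemma Z_pos {m : ℕ} {z : X → Finset V → M} {i : ℕ} {x : X} {s : Finset V}
    (h : C.Clq s ∧ s.card = 2 * m - i) :
    S.Z C m z i x s = (cubes C).cup (i : ℤ) S.β z z x s := if_pos h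

lemma Z_neg {m : ℕ} {z : X → Finset V → M} {i : ℕ} {x : X} {s : Finset V}
    (h : ¬ (C.Clq s ∧ s.card = 2 * m - i)) : S.Z C m z i x s = 0 := if_neg h

lemma cup_swap (i : ℤ) (z : X → Finset V → M) (x : X) (s : Finset V) :
    (cubes C).cup i S.β.flip z z x s = S.T ((cubes C).cup i S.β z z x s) :=
  (cubes C).cup_map (AddMonoidHom.id M) S.T id (fun _ _ => rfl) (fun _ _ => rfl) i S.β S.β.flip
    (fun m m' => by simp [S.Tβ]) z z z z (fun _ _ => rfl) (fun _ _ => rfl) x s

lemma cup_smul {m : ℕ} {z : X → Finset V → M} (hz : z ∈ C.K M m) (i : ℤ) (g : Γ) (x : X)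
    (s : Finset V) :
    (cubes C).cup i S.β z z (g • x) s = g • (cubes C).cup i S.β z z x s :=
  (cubes C).cup_map (DistribSMul.toAddMonoidHom M g) (DistribSMul.toAddMonoidHom A g)
    (fun x => g • x) (fun v x => C.smul_tau g v x) (fun x v => by
      change C.crd (g • x) v = C.crd x v
      rw [C.smul_crd]) i S.β S.β
    (fun m m' => by simp [S.smul_β]) z z z z (fun x s => CC.K_smul hz g x s)
    (fun x s => CC.K_smul hz g x s) x s

lemma Z_mem {m : ℕ} {z : X → Finset V → M} (hz : z ∈ C.K M m) (i : ℕ) :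
    S.Z C m z i ∈ C.K A (2 * m - i) := by
  refine ⟨fun x s h0 => ?_, fun x s v hs hv => ?_, fun g x s => ?_⟩
  · by_contra h1
    exact h0 (S.Z_neg C h1)
  · by_cases h : C.Clq s ∧ s.card = 2 * m - i
    · rw [S.Z_pos C h, S.Z_pos C h]
      exact (cubes C).cup_inv i S.β z z (fun s hs v hv x => CC.K_tau hz hs hv x)
        (fun s hs v hv x => CC.K_tau hz hs hv x) s hs v hv x
    · rw [S.Z_neg C h, S.Z_neg C h]
  · by_cases h : C.Clq s ∧ s.card = 2 * m - i
    · rw [S.Z_pos C h, S.Z_pos C h, S.cup_smul C hz]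
    · rw [S.Z_neg C h, S.Z_neg C h, smul_zero]

/-- the coboundary of a cup square -/
lemma dlt_cup {m : ℕ} {z : X → Finset V → M} (hz : z ∈ C.K M m) (hdz : C.dlt z = 0) (i : ℤ)
    {s : Finset V} (hs : C.Clq s) (x : X) :
    C.dlt ((cubes C).cup i S.β z z) x s = S.N ((cubes C).cup (i - 1) S.β z z x s) := by
  rw [C.dlt_clq hs]
  have h := (cubes C).cup_cocycle S.two i S.β z (fun s hs x => by
    have := congrFun (congrFun hdz x) s
    rw [C.dlt_clq hs] at this
    exact this) s hs x
  rw [S.cup_swap C] at h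
  exact h

lemma dlt_Z {m : ℕ} {z : X → Finset V → M} (hz : z ∈ C.K M m) (hdz : C.dlt z = 0) (i : ℕ)
    (hi : i ≤ 2 * m) {s : Finset V} (hs : C.Clq s) (hc : s.card = 2 * m - i + 1) (x : X) :
    C.dlt (S.Z C m z i) x s = S.N ((cubes C).cup ((i : ℤ) - 1) S.β z z x s) := by
  rw [← S.dlt_cup C hz hdz i hs x, C.dlt_clq hs, C.dlt_clq hs]
  refine sum_congr rfl fun v hv => ?_
  have h1 : C.Clq (s.erase v) ∧ (s.erase v).card = 2 * m - i :=
    ⟨hs.mono (erase_subset v s), by rw [card_erase_of_mem hv, hc]; rfl⟩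
  rw [S.Z_pos C h1, S.Z_pos C h1]

include S in
/-- The Tate lemma. -/
theorem tate (k : ℕ) (hA : ∀ m, m ≤ 2 * k → Ex (C.K A) (C.dlt (M := A)) m) :
    ∀ m, m ≤ k → Ex (C.K M) (C.dlt (M := M)) m := by
  intro m
  induction m using Nat.strong_induction_on with
  | _ m ih =>
    intro hm
    have key : ∀ z ∈ C.K M m, C.dlt z = 0 →
        (m = 0 → z = 0) ∧ (0 < m → ∃ y ∈ C.K M (m - 1), C.dlt y = z) := by
      intro z hz hdz
      refine (S.td C).main m (fun m' h => hA m' (by omega)) (fun m' h => ih m' h (by omega)) z hz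
        (S.Z C m z) (fun i hi => S.Z_mem C hz i) ?_ ?_ ?_ ?_
      · -- d Z 0 = 0
        funext x s
        have hmem := C.dlt_mem (S.Z_mem C hz 0)
        by_cases h : C.Clq s ∧ s.card = 2 * m - 0 + 1
        · change C.dlt (S.Z C m z 0) x s = 0
          rw [S.dlt_Z C hz hdz 0 (by omega) h.1 h.2, (cubes C).cup_neg _ (by norm_num), S.N_zero]
        · exact CC.K_zero hmem h x
      · intro i hi
        funext x s
        have hmem := C.dlt_mem (S.Z_mem C hz (i + 1))
        by_cases h : C.Clq s ∧ s.card = 2 * m - (i + 1) + 1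
        · change C.dlt (S.Z C m z (i + 1)) x s = S.N (S.Z C m z i x s)
          rw [S.dlt_Z C hz hdz (i + 1) (by omega) h.1 h.2, S.Z_pos C ⟨h.1, by omega⟩]
          congr 2
          push_cast; ring
        · change C.dlt (S.Z C m z (i + 1)) x s = S.N (S.Z C m z i x s)
          rw [CC.K_zero hmem h x, S.Z_neg C (fun h' => h ⟨h'.1, by omega⟩), S.N_zero]
      · intro i hi
        funext x s
        by_cases h : C.Clq s ∧ s.card = 2 * m - i
        · rw [S.Z_pos C h]
          exact (cubes C).cup_big _ _ _ _ _ _ (by omega)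
        · rw [S.Z_neg C h]; rfl
      · funext x s
        by_cases h : C.Clq s ∧ s.card = 2 * m - m
        · rw [S.Z_pos C h]
          have h2 : (m : ℤ) = (s.card : ℤ) := by omega
          rw [h2, (cubes C).cup_top]
          rfl
        · rw [S.Z_neg C h]
          have h2 : z x s = 0 := CC.K_zero hz (fun h' => h ⟨h'.1, by omega⟩) x
          change 0 = S.β (z x s) (z x s)
          rw [h2]; simp
    cases m with
    | zero =>
      intro z hz hdz
      exact (key z hz hdz).1 rfl
    | succ m =>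
      intro z hz hdz
      exact (key z hz hdz).2 (Nat.succ_pos m)

end SqMod

end Pool.Agent.H68.TL
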